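import Mathlib

set_option autoImplicit false

open Finset Module

namespace Pool.Agent.H45

/-- Auerbach's lemma. -/
lemma auerbach (X : Type*) [NormedAddCommGroup X] [NormedSpace ℝ X] [FiniteDimensional ℝ X] :
    ∃ b : Basis (Fin (finrank ℝ X)) ℝ X, (∀ i, ‖b i‖ ≤ 1) ∧ ∀ i x, |b.repr x i| ≤ ‖x‖ := by
  classical
  set k := finrank ℝ X with hk
  set b₀ : Basis (Fin k) ℝ X := finBasis ℝ X with hb₀
  have : ProperSpace (Fin k → X) := FiniteDimensional.proper ℝ (Fin k → X)
  have hK : IsCompact (Metric.closedBall (0 : Fin k → X) 1) := isCompact_closedBall _ _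
  have hcont : Continuous fun v : Fin k → X => |b₀.det v| := by
    have h1 : Continuous fun v : Fin k → X => b₀.det v := by
      have h2 : (fun v : Fin k → X => b₀.det v) = fun v => Matrix.det (b₀.toMatrix v) := by
        funext v
        exact b₀.det_apply v
      rw [h2]
      refine Continuous.matrix_det ?_
      refine continuous_matrix fun i j => ?_
      have h3 : Continuous fun x : X => b₀.repr x i :=
        (b₀.coord i).continuous_of_finiteDimensional
      exact h3.comp (continuous_apply j)
    exact h1.abs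
  obtain ⟨v, hvK, hv⟩ := hK.exists_isMaxOn ⟨0, Metric.mem_closedBall_self zero_le_one⟩
    hcont.continuousOn
  have hv1 : ∀ i, ‖v i‖ ≤ 1 := by
    intro i
    have := mem_closedBall_zero_iff.1 hvK
    exact (norm_le_pi_norm v i).trans this
  have hpos : 0 < |b₀.det v| := by
    set w : Fin k → X := fun i => (‖b₀ i‖ + 1)⁻¹ • b₀ i with hw
    have hwK : w ∈ Metric.closedBall (0 : Fin k → X) 1 := by
      rw [mem_closedBall_zero_iff, pi_norm_le_iff_of_nonneg zero_le_one]
      intro i
      rw [hw]
      simp only
      rw [norm_smul, norm_inv, Real.norm_eq_abs, abs_of_pos (by positivity), inv_mul_le_iff₀ (by positivity)]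
      linarith
    have h1 : |b₀.det w| ≤ |b₀.det v| := hv hwK
    refine lt_of_lt_of_le ?_ h1
    rw [hw, AlternatingMap.map_smul_univ, b₀.det_self, smul_eq_mul, mul_one, abs_pos]
    exact prod_ne_zero_iff.2 fun i _ => by positivity
  have hdet : b₀.det v ≠ 0 := abs_pos.1 hpos
  have hbas := (Module.Basis.is_basis_iff_det b₀).2 (isUnit_iff_ne_zero.2 hdet)
  set b : Basis (Fin k) ℝ X := Basis.mk hbas.1 hbas.2.ge with hb
  have hbv : ∀ i, b i = v i := fun i => by rw [hb, Basis.mk_apply]
  have hunit : ∀ i x, ‖x‖ ≤ 1 → |b.repr x i| ≤ 1 := by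
    intro i x hx
    have hupK : Function.update v i x ∈ Metric.closedBall (0 : Fin k → X) 1 := by
      rw [mem_closedBall_zero_iff, pi_norm_le_iff_of_nonneg zero_le_one]
      intro j
      by_cases hj : j = i
      · rw [hj, Function.update_self]
        exact hx
      · rw [Function.update_of_ne hj]
        exact hv1 j
    have h1 : |b₀.det (Function.update v i x)| ≤ |b₀.det v| := hv hupK
    have h2 : b₀.det (Function.update v i x) = b.repr x i * b₀.det v := by
      conv_lhs => rw [← b.sum_repr x]
      rw [AlternatingMap.map_update_sum]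
      simp_rw [AlternatingMap.map_update_smul, hbv]
      rw [sum_eq_single i]
      · rw [Function.update_eq_self, smul_eq_mul]
      · intro j _ hj
        rw [AlternatingMap.map_update_self _ _ hj.symm, smul_zero]
      · simp
    rw [h2, abs_mul] at h1
    by_contra hcon
    rw [not_le] at hcon
    nlinarith
  refine ⟨b, fun i => by rw [hbv]; exact hv1 i, fun i x => ?_⟩
  by_cases hx : x = 0
  · rw [hx]
    simp
  · have hx' := norm_pos_iff.2 hx
    have h1 := hunit i (‖x‖⁻¹ • x) (by rw [norm_smul, norm_inv, norm_norm, inv_mul_cancel₀ hx'.ne'])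
    rw [map_smul, Finsupp.smul_apply, smul_eq_mul, abs_mul, abs_inv, abs_norm,
      inv_mul_le_iff₀ hx', mul_one] at h1
    exact h1

end Pool.Agent.H45
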