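import Mathlib

set_option autoImplicit false

open Finset

namespace Pool.Agent.H45.Aver

variable (q N : ℕ) [Fact q.Prime]

/-- The generators `y (1, x, x², …, x^{N-1})`. -/
def gen (x y : ZMod q) : Fin N → ZMod q := fun i => y * x ^ (i : ℕ)

section ops
variable {X : Type*} [AddCommGroup X] [Module ℝ X]

/-- The averaging operator of the Cayley graph. -/
noncomputable def A (g : (Fin N → ZMod q) → X) (v : Fin N → ZMod q) : X :=
  ((q : ℝ) ^ 2)⁻¹ • ∑ x : ZMod q, ∑ y : ZMod q, g (v + gen q N x y)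

/-- The mean. -/
noncomputable def J (g : (Fin N → ZMod q) → X) : X :=
  ((q : ℝ) ^ N)⁻¹ • ∑ v, g v

/-- The averaging operator minus the mean. -/
noncomputable def T (g : (Fin N → ZMod q) → X) (v : Fin N → ZMod q) : X := A q N g v - J q N g

end ops

/-- The characters of `F_q^N`. -/
noncomputable def chr (c v : Fin N → ZMod q) : ℂ := ZMod.stdAddChar (∑ i, c i * v i)

lemma chr_comm (c v : Fin N → ZMod q) : chr q N c v = chr q N v c := by
  unfold chr
  simp_rw [mul_comm]

lemma chr_add (c v w : Fin N → ZMod q) : chr q N c (v + w) = chr q N c v * chr q N c w := by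
  unfold chr
  rw [← AddChar.map_add_eq_mul, ← sum_add_distrib]
  simp_rw [Pi.add_apply, mul_add]

lemma norm_chr (c v : Fin N → ZMod q) : ‖chr q N c v‖ = 1 := by
  unfold chr
  exact AddChar.norm_apply _ _

lemma chr_neg (c v : Fin N → ZMod q) : chr q N c (-v) = (starRingEnd ℂ) (chr q N c v) := by
  unfold chr
  rw [← AddChar.map_neg_eq_conj]
  congr 1
  simp

lemma chr_sub (c v w : Fin N → ZMod q) :
    chr q N c (v - w) = chr q N c v * (starRingEnd ℂ) (chr q N c w) := by
  rw [sub_eq_add_neg, chr_add, chr_neg]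

lemma chr_zero (c : Fin N → ZMod q) : chr q N c 0 = 1 := by
  unfold chr
  simp

lemma sum_chr (v : Fin N → ZMod q) :
    ∑ c, chr q N c v = if v = 0 then (q : ℂ) ^ N else 0 := by
  split_ifs with h
  · rw [h]
    simp [chr_zero, ZMod.card]
  · obtain ⟨i, hi⟩ : ∃ i, v i ≠ 0 := by
      by_contra hcon
      push Not at hcon
      exact h (funext hcon)
    obtain ⟨t, ht⟩ : ∃ t : ZMod q, (ZMod.stdAddChar (t * v i) : ℂ) ≠ 1 := by
      have := ZMod.isPrimitive_stdAddChar q hi
      rw [AddChar.ne_one_iff] at this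
      obtain ⟨t, ht⟩ := this
      refine ⟨t, ?_⟩
      rwa [AddChar.mulShift_apply, mul_comm] at ht
    set w : Fin N → ZMod q := Pi.single i t with hw
    have hcw : chr q N w v ≠ 1 := by
      unfold chr
      rw [hw]
      simpa [Pi.single_apply] using ht
    have hs : ∑ c, chr q N c v = chr q N w v * ∑ c, chr q N c v := by
      rw [mul_sum]
      have h1 : ∀ c, chr q N w v * chr q N c v = chr q N (w + c) v := by
        intro c
        rw [chr_comm q N (w + c), chr_add, chr_comm q N w, chr_comm q N c]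
      simp_rw [h1]
      exact (Fintype.sum_equiv (Equiv.addLeft w) _ _ fun c => rfl).symm
    have h2 : (chr q N w v - 1) * ∑ c, chr q N c v = 0 := by
      rw [sub_mul, one_mul, ← hs, sub_self]
    rcases mul_eq_zero.1 h2 with h3 | h3
    · exact absurd (sub_eq_zero.1 h3) hcw
    · exact h3

/-- Fourier transform. -/
noncomputable def ft (h : (Fin N → ZMod q) → ℂ) (c : Fin N → ZMod q) : ℂ :=
  ∑ v, h v * chr q N c v

/-- Parseval. -/
lemma parseval (h : (Fin N → ZMod q) → ℂ) :
    ∑ c, ‖ft q N h c‖ ^ 2 = (q : ℝ) ^ N * ∑ v, ‖h v‖ ^ 2 := by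
  have h1 : ((∑ c, ‖ft q N h c‖ ^ 2 : ℝ) : ℂ) = (((q : ℝ) ^ N * ∑ v, ‖h v‖ ^ 2 : ℝ) : ℂ) := by
    push_cast
    have h2 : ∀ z : ℂ, ((‖z‖ : ℂ)) ^ 2 = z * (starRingEnd ℂ) z := fun z => (Complex.mul_conj' z).symm
    simp_rw [h2]
    unfold ft
    simp_rw [map_sum, map_mul, sum_mul_sum]
    rw [sum_comm, mul_sum]
    refine sum_congr rfl fun v _ => ?_
    rw [sum_comm]
    have h3 : ∀ w, ∑ c, h v * chr q N c v * ((starRingEnd ℂ) (h w) * (starRingEnd ℂ) (chr q N c w)) =
        h v * (starRingEnd ℂ) (h w) * (if v - w = 0 then (q : ℂ) ^ N else 0) := by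
      intro w
      rw [← sum_chr, mul_sum]
      refine sum_congr rfl fun c _ => ?_
      rw [chr_sub]
      ring
    simp_rw [h3]
    rw [sum_eq_single v]
    · simp
      ring
    · intro w _ hw
      rw [if_neg (sub_ne_zero.2 (Ne.symm hw)), mul_zero]
    · simp
  exact_mod_cast h1

/-- The eigenvalues. -/
noncomputable def lam (c : Fin N → ZMod q) : ℂ :=
  ((q : ℂ) ^ 2)⁻¹ * ∑ x : ZMod q, ∑ y : ZMod q, (starRingEnd ℂ) (chr q N c (gen q N x y))

lemma ft_shift (h : (Fin N → ZMod q) → ℂ) (u c : Fin N → ZMod q) :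
    ft q N (fun v => h (v + u)) c = ft q N h c * (starRingEnd ℂ) (chr q N c u) := by
  unfold ft
  rw [sum_mul]
  refine Fintype.sum_equiv (Equiv.addRight u) _ _ fun v => ?_
  simp only [Equiv.coe_addRight]
  rw [chr_add]
  have h1 : chr q N c u * (starRingEnd ℂ) (chr q N c u) = 1 := by
    rw [Complex.mul_conj', norm_chr]
    simp
  calc h (v + u) * chr q N c v = h (v + u) * chr q N c v * (chr q N c u * (starRingEnd ℂ) (chr q N c u)) := by
        rw [h1, mul_one]
    _ = _ := by ring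

lemma ft_A (h : (Fin N → ZMod q) → ℂ) (c : Fin N → ZMod q) :
    ft q N (A q N h) c = lam q N c * ft q N h c := by
  have h1 : ft q N (A q N h) c = ((q : ℂ) ^ 2)⁻¹ * ∑ x : ZMod q, ∑ y : ZMod q,
      ft q N (fun v => h (v + gen q N x y)) c := by
    unfold ft A
    rw [mul_sum]
    simp_rw [mul_sum, smul_sum, sum_mul]
    rw [sum_comm]
    refine sum_congr rfl fun x _ => ?_
    rw [sum_comm]
    refine sum_congr rfl fun y _ => ?_
    refine sum_congr rfl fun v _ => ?_
    rw [Complex.real_smul]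
    push_cast
    ring
  rw [h1]
  simp_rw [ft_shift]
  unfold lam
  simp_rw [← mul_sum]
  ring

lemma ft_const (z : ℂ) (c : Fin N → ZMod q) :
    ft q N (fun _ => z) c = if c = 0 then z * (q : ℂ) ^ N else 0 := by
  unfold ft
  rw [← mul_sum]
  have h1 : ∑ v, chr q N c v = ∑ v, chr q N v c := sum_congr rfl fun v _ => chr_comm q N c v
  rw [h1, sum_chr]
  split_ifs <;> simp

lemma lam_eq (c : Fin N → ZMod q) : lam q N c =
    ((q : ℂ))⁻¹ * (({x : ZMod q | ∑ i, c i * x ^ (i : ℕ) = 0} : Finset (ZMod q)).card : ℂ) := by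
  have hq : (q : ℂ) ≠ 0 := by
    exact_mod_cast (Fact.out : q.Prime).ne_zero
  have h1 : ∀ x : ZMod q, ∑ y : ZMod q, (starRingEnd ℂ) (chr q N c (gen q N x y)) =
      if ∑ i, c i * x ^ (i : ℕ) = 0 then (q : ℂ) else 0 := by
    intro x
    have h2 : ∀ y, chr q N c (gen q N x y) = ZMod.stdAddChar (y * ∑ i, c i * x ^ (i : ℕ)) := by
      intro y
      unfold chr gen
      congr 1
      rw [mul_sum]
      exact sum_congr rfl fun i _ => by ring
    simp_rw [h2]
    rw [← map_sum, AddChar.sum_mulShift _ (ZMod.isPrimitive_stdAddChar q)]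
    split_ifs <;> simp [ZMod.card]
  unfold lam
  simp_rw [h1]
  rw [← sum_filter, sum_const, nsmul_eq_mul]
  field_simp

lemma norm_lam_le (hN : 1 ≤ N) {c : Fin N → ZMod q} (hc : c ≠ 0) :
    ‖lam q N c‖ ≤ ((N : ℝ) - 1) / q := by
  have hq : (0 : ℝ) < q := by
    exact_mod_cast (Fact.out : q.Prime).pos
  rw [lam_eq, norm_mul, norm_inv, Complex.norm_natCast, Complex.norm_natCast, inv_mul_eq_div]
  apply div_le_div_of_nonneg_right _ hq.le
  have h1 : ({x : ZMod q | ∑ i, c i * x ^ (i : ℕ) = 0} : Finset (ZMod q)).card ≤ N - 1 := by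
    classical
    set P : Polynomial (ZMod q) := ∑ i : Fin N, Polynomial.C (c i) * Polynomial.X ^ (i : ℕ) with hP
    have hcoef : ∀ i : Fin N, P.coeff i = c i := by
      intro i
      rw [hP, Polynomial.finsetSum_coeff]
      simp_rw [Polynomial.coeff_C_mul, Polynomial.coeff_X_pow]
      rw [sum_eq_single i]
      · simp
      · intro j _ hj
        rw [if_neg]
        · simp
        · intro h
          exact hj (Fin.ext h.symm)
      · simp
    have hP0 : P ≠ 0 := by
      intro h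
      apply hc
      funext i
      rw [← hcoef i, h]
      simp
    have hdeg : P.natDegree ≤ N - 1 := by
      rw [hP]
      refine Polynomial.natDegree_sum_le_of_forall_le _ _ fun i _ => ?_
      refine (Polynomial.natDegree_C_mul_X_pow_le _ _).trans ?_
      have := i.2
      omega
    have hsub : ({x : ZMod q | ∑ i, c i * x ^ (i : ℕ) = 0} : Finset (ZMod q)) ⊆ P.roots.toFinset := by
      intro x hx
      rw [mem_filter] at hx
      rw [Multiset.mem_toFinset, Polynomial.mem_roots hP0, Polynomial.IsRoot.def, hP,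
        Polynomial.eval_finsetSum]
      simpa using hx.2
    calc _ ≤ P.roots.toFinset.card := card_le_card hsub
      _ ≤ Multiset.card P.roots := Multiset.toFinset_card_le _
      _ ≤ P.natDegree := P.card_roots'
      _ ≤ N - 1 := hdeg
  have h2 : (({x : ZMod q | ∑ i, c i * x ^ (i : ℕ) = 0} : Finset (ZMod q)).card : ℝ) ≤ ((N - 1 : ℕ) : ℝ) := by
    exact_mod_cast h1
  rwa [Nat.cast_sub hN, Nat.cast_one] at h2

lemma lam_zero : lam q N 0 = 1 := by
  have hq : (q : ℂ) ≠ 0 := by
    exact_mod_cast (Fact.out : q.Prime).ne_zero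
  rw [lam_eq]
  simp [ZMod.card, hq]

lemma ft_T (h : (Fin N → ZMod q) → ℂ) (c : Fin N → ZMod q) :
    ft q N (T q N h) c = if c = 0 then 0 else lam q N c * ft q N h c := by
  have hq : (q : ℂ) ≠ 0 := by
    exact_mod_cast (Fact.out : q.Prime).ne_zero
  have h1 : ft q N (T q N h) c = ft q N (A q N h) c - ft q N (fun _ => J q N h) c := by
    unfold ft T
    rw [← sum_sub_distrib]
    exact sum_congr rfl fun v _ => by ring
  rw [h1, ft_A, ft_const]
  split_ifs with hc
  · rw [hc, lam_zero, one_mul]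
    unfold ft J
    simp_rw [chr_comm q N 0, chr_zero, mul_one]
    rw [Complex.real_smul]
    push_cast
    field_simp
    ring
  · rw [sub_zero]

/-- The `L²` bound for complex-valued functions. -/
lemma T_bound_complex (hN : 1 ≤ N) (h : (Fin N → ZMod q) → ℂ) :
    ∑ v, ‖T q N h v‖ ^ 2 ≤ (((N : ℝ) - 1) / q) ^ 2 * ∑ v, ‖h v‖ ^ 2 := by
  have hq : (0 : ℝ) < q := by
    exact_mod_cast (Fact.out : q.Prime).pos
  have hN' : (0 : ℝ) ≤ (N : ℝ) - 1 := by
    have : (1 : ℝ) ≤ N := by exact_mod_cast hN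
    linarith
  have h1 := parseval q N (T q N h)
  have h2 := parseval q N h
  have h3 : ∑ c, ‖ft q N (T q N h) c‖ ^ 2 ≤ (((N : ℝ) - 1) / q) ^ 2 * ∑ c, ‖ft q N h c‖ ^ 2 := by
    rw [mul_sum]
    refine sum_le_sum fun c _ => ?_
    rw [ft_T]
    split_ifs with hc
    · rw [norm_zero, zero_pow two_ne_zero]
      positivity
    · rw [norm_mul, mul_pow]
      have := norm_lam_le q N hN hc
      gcongr
  rw [h1, h2] at h3
  have hqN : (0 : ℝ) < (q : ℝ) ^ N := by positivity
  have h4 : (q : ℝ) ^ N * ∑ v, ‖T q N h v‖ ^ 2 ≤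
      (q : ℝ) ^ N * ((((N : ℝ) - 1) / q) ^ 2 * ∑ v, ‖h v‖ ^ 2) := by
    linarith
  exact le_of_mul_le_mul_left h4 hqN

/-- The `L²` bound for real-valued functions. -/
lemma T_bound_real (hN : 1 ≤ N) (h : (Fin N → ZMod q) → ℝ) :
    ∑ v, (T q N h v) ^ 2 ≤ (((N : ℝ) - 1) / q) ^ 2 * ∑ v, (h v) ^ 2 := by
  have h1 := T_bound_complex q N hN (fun v => (h v : ℂ))
  have h2 : ∀ v, T q N (fun v => (h v : ℂ)) v = ((T q N h v : ℝ) : ℂ) := by
    intro v
    unfold T A J
    simp only [Complex.real_smul, smul_eq_mul]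
    push_cast
    ring
  simp_rw [h2, Complex.norm_real, Real.norm_eq_abs, sq_abs] at h1
  exact h1

end Pool.Agent.H45.Aver
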