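import Mathlib

set_option autoImplicit false

open Set Cardinal TopologicalSpace

namespace Pool.Agent.H45.BaireSubspace

/-- A countable intersection of dense open subsets of the line has cardinality continuum. -/
lemma card_iInter (U : ℕ → Set ℝ) (ho : ∀ k, IsOpen (U k)) (hd : ∀ k, Dense (U k)) :
    #(⋂ k, U k : Set ℝ) = 𝔠 := by
  have hm : MeasurableSet (⋂ k, U k) := MeasurableSet.iInter fun k => (ho k).measurableSet
  have hnc : ¬ Countable (⋂ k, U k : Set ℝ) := by
    intro hc
    have hc' : (⋂ k, U k : Set ℝ).Countable := hc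
    have h1 : Dense (⋂ t ∈ (⋂ k, U k : Set ℝ), ({t}ᶜ : Set ℝ)) :=
      dense_biInter_of_isOpen (fun t _ => isOpen_compl_singleton) hc'
        (fun t _ => dense_compl_singleton t)
    have h2 : Dense (⋂ k, U k) := dense_iInter_of_isOpen_nat ho hd
    have g1 : IsGδ (⋂ t ∈ (⋂ k, U k : Set ℝ), ({t}ᶜ : Set ℝ)) :=
      IsGδ.biInter hc' fun t _ => isOpen_compl_singleton.isGδ
    have g2 : IsGδ (⋂ k, U k) := IsGδ.iInter_of_isOpen ho
    obtain ⟨t, ht1, ht2⟩ := (h1.inter_of_Gδ g1 g2 h2).nonempty
    simp only [mem_iInter] at ht1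
    exact (ht1 t (mem_iInter.1 ht2)) rfl
  have := hm.standardBorel
  have hR : ¬ Countable ℝ := by
    rw [← Cardinal.mk_le_aleph0_iff, Cardinal.mk_real, not_le]
    exact aleph0_lt_continuum
  have e := PolishSpace.measurableEquivOfNotCountable hnc hR
  exact (Cardinal.mk_congr e.toEquiv).trans Cardinal.mk_real

variable {X : Type} [AddCommGroup X] [Module ℂ X]

/-- Members of a family that is linearly independent modulo `N` and lie in `N + span S` are at most
as many as the elements of `S`. -/
lemma card_le_of_mem (N : Submodule ℂ X) (γ : ℝ → X)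
    (hli : LinearIndependent ℂ (fun t => N.mkQ (γ t))) (S : Set X) :
    #{t : ℝ | γ t ∈ N ⊔ Submodule.span ℂ S} ≤ #S := by
  set T : Set ℝ := {t : ℝ | γ t ∈ N ⊔ Submodule.span ℂ S} with hT
  set W : Submodule ℂ (X ⧸ N) := Submodule.span ℂ (N.mkQ '' S) with hW
  have hmem : ∀ t : T, N.mkQ (γ t) ∈ W := by
    intro t
    have ht : γ t ∈ N ⊔ Submodule.span ℂ S := t.2
    obtain ⟨n, hn, w, hw, hnw⟩ := Submodule.mem_sup.1 ht
    rw [← hnw, map_add]
    have h1 : N.mkQ n = 0 := by simpa using hn
    rw [h1, zero_add, hW, ← Submodule.map_span]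
    exact Submodule.mem_map_of_mem hw
  let v : T → W := fun t => ⟨N.mkQ (γ t), hmem t⟩
  have hv : LinearIndependent ℂ v := by
    apply LinearIndependent.of_comp W.subtype
    exact hli.comp (fun t : T => (t : ℝ)) Subtype.val_injective
  calc #T ≤ Module.rank ℂ W := hv.cardinal_le_rank
    _ ≤ #(N.mkQ '' S : Set (X ⧸ N)) := rank_span_le _
    _ ≤ #S := mk_image_le

/-- A family indexed by a well order in which no member lies in `N` plus the span of the earlier
members spans a subspace that meets `N` only in zero. -/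
lemma span_inter {κ : Type} (r : κ → κ → Prop) [wo : IsWellOrder κ r] (y : κ → X)
    (N : Submodule ℂ X) (h : ∀ a, y a ∉ N ⊔ Submodule.span ℂ (y '' {b | r b a})) :
    ∀ x ∈ Submodule.span ℂ (range y), x ∈ N → x = 0 := by
  classical
  intro x hx hxi
  by_contra hx0
  rw [Finsupp.mem_span_range_iff_exists_finsupp] at hx
  obtain ⟨c, hc⟩ := hx
  let _ : LinearOrder κ := linearOrderOfSTO r
  have hlt : ∀ a b : κ, a < b ↔ r a b := fun a b => Iff.rfl
  have hne : c.support.Nonempty := by
    rw [Finsupp.support_nonempty_iff]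
    rintro rfl
    exact hx0 (by simpa using hc.symm)
  set a := c.support.max' hne with ha
  have hac : a ∈ c.support := Finset.max'_mem _ _
  have hca : c a ≠ 0 := Finsupp.mem_support_iff.1 hac
  apply h a
  have hsum : c a • y a + ∑ b ∈ c.support.erase a, c b • y b = x := by
    rw [← hc, Finsupp.sum, ← Finset.add_sum_erase _ _ hac]
  have hrest : ∑ b ∈ c.support.erase a, c b • y b ∈
      Submodule.span ℂ (y '' {b | r b a}) := by
    refine Submodule.sum_mem _ fun b hb => Submodule.smul_mem _ _ (Submodule.subset_span ?_)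
    refine ⟨b, ?_, rfl⟩
    rw [Finset.mem_erase] at hb
    have h1 : b ≤ a := Finset.le_max' _ _ hb.2
    exact (hlt b a).1 (lt_of_le_of_ne h1 hb.1)
  have hya : y a = (c a)⁻¹ • (x - ∑ b ∈ c.support.erase a, c b • y b) := by
    rw [← hsum, add_sub_cancel_right, smul_smul, inv_mul_cancel₀ hca, one_smul]
  rw [hya]
  refine Submodule.smul_mem _ _ (Submodule.sub_mem _ ?_ ?_)
  · exact (le_sup_left : N ≤ _) hxi
  · exact (le_sup_right : Submodule.span ℂ (y '' {b | r b a}) ≤ _) hrest

variable [TopologicalSpace X] [IsTopologicalAddGroup X] [BaireSpace X]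

lemma exists_good {ι : Type} [Countable ι] (N : ι → Submodule ℂ X) (γ : ℝ → X)
    (hγ : Continuous γ) (hli : ∀ i, LinearIndependent ℂ (fun t => (N i).mkQ (γ t)))
    (U : ℕ → Set X) (ho : ∀ k, IsOpen (U k)) (hd : ∀ k, Dense (U k)) (S : Set X) (hS : #S < 𝔠) :
    ∃ y, (∀ k, y ∈ U k) ∧ ∀ i, y ∉ N i ⊔ Submodule.span ℂ S := by
  -- a base point
  obtain ⟨x, hx⟩ : ∃ x : X, ∀ (l : ℚ) (k : ℕ), x + γ l ∈ U k := by
    have h1 : Dense (⋂ lk : ℚ × ℕ, {x : X | x + γ lk.1 ∈ U lk.2}) := by
      refine dense_iInter_of_isOpen (fun lk => ?_) (fun lk => ?_)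
      · exact (ho lk.2).preimage (continuous_add_const (γ lk.1))
      · exact (hd lk.2).preimage (Homeomorph.addRight (γ lk.1)).isOpenMap
    obtain ⟨x, hx⟩ := h1.nonempty
    exact ⟨x, fun l k => mem_iInter.1 hx (l, k)⟩
  set V : ℕ → Set ℝ := fun k => {t | x + γ t ∈ U k} with hV
  have hVo : ∀ k, IsOpen (V k) := fun k => (ho k).preimage (continuous_const.add hγ)
  have hVd : ∀ k, Dense (V k) := by
    intro k
    refine (Rat.denseRange_cast (𝕜 := ℝ)).mono ?_
    rintro _ ⟨l, rfl⟩
    exact hx l k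
  have hcard := card_iInter V hVo hVd
  by_contra hcon
  push Not at hcon
  have hsub : (⋂ k, V k) ⊆ ⋃ i, {t : ℝ | γ t ∈ N i ⊔ Submodule.span ℂ (insert x S)} := by
    intro t ht
    obtain ⟨i, hi⟩ := hcon (x + γ t) (fun k => mem_iInter.1 ht k)
    rw [mem_iUnion]
    refine ⟨i, ?_⟩
    have h1 : x + γ t ∈ N i ⊔ Submodule.span ℂ (insert x S) :=
      (sup_le_sup_left (Submodule.span_mono (subset_insert x S)) (N i)) hi
    have h2 : x ∈ N i ⊔ Submodule.span ℂ (insert x S) :=
      (le_sup_right : Submodule.span ℂ (insert x S) ≤ _) (Submodule.subset_span (mem_insert x S))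
    have h3 := Submodule.sub_mem _ h1 h2
    simpa using h3
  have h1 : #(⋂ k, V k : Set ℝ) ≤ ℵ₀ * (#S + 1) := by
    refine (mk_le_mk_of_subset hsub).trans ((mk_iUnion_le _).trans ?_)
    refine mul_le_mul' (mk_le_aleph0_iff.2 inferInstance) (ciSup_le' fun i => ?_)
    exact (card_le_of_mem (N i) γ (hli i) (insert x S)).trans mk_insert_le
  have h2 : ℵ₀ * (#S + 1) < 𝔠 :=
    mul_lt_of_lt aleph0_le_continuum aleph0_lt_continuum
      (add_lt_of_lt aleph0_le_continuum hS (one_lt_aleph0.trans aleph0_lt_continuum))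
  rw [hcard] at h1
  exact absurd (h1.trans_lt h2) (lt_irrefl _)

/-- In a second countable Baire topological vector space with a continuous real curve that is
linearly independent modulo each of countably many subspaces, there is a dense subspace that is
Baire and meets each of these subspaces only in zero. -/
theorem exists_baire_submodule [ContinuousSMul ℂ X] [SecondCountableTopology X] {ι : Type} [Countable ι]
    (N : ι → Submodule ℂ X) (γ : ℝ → X)
    (hγ : Continuous γ) (hli : ∀ i, LinearIndependent ℂ (fun t => (N i).mkQ (γ t))) :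
    ∃ E : Submodule ℂ X, Dense (E : Set X) ∧ (∀ i, ∀ x ∈ E, x ∈ N i → x = 0) ∧ BaireSpace E := by
  classical
  -- enumeration of a basis
  obtain ⟨B, hB⟩ : ∃ B : ℕ → Set X, countableBasis X = range B := by
    refine (countable_countableBasis X).exists_eq_range ?_
    obtain ⟨v, hv, _⟩ := (isBasis_countableBasis X).exists_subset_of_mem_open
      (mem_univ (0 : X)) isOpen_univ
    exact ⟨v, hv⟩
  have hbasis : IsTopologicalBasis (range B) := hB ▸ isBasis_countableBasis X
  have hBo : ∀ n, IsOpen (B n) := fun n => hbasis.isOpen (mem_range_self n)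
  have hcode : ∀ W : Set X, IsOpen W → ∃ c : Set ℕ, W = ⋃ n ∈ c, B n := by
    intro W hW
    refine ⟨{n | B n ⊆ W}, subset_antisymm ?_ (iUnion₂_subset fun n hn => hn)⟩
    intro x hx
    obtain ⟨v, ⟨n, rfl⟩, hxv, hvW⟩ := hbasis.exists_subset_of_mem_open hx hW
    exact mem_biUnion (show n ∈ {n | B n ⊆ W} from hvW) hxv
  let κ : Type := ℕ → Set ℕ
  have hκ : #κ = 𝔠 := by
    simp [κ]
  obtain ⟨r, wo, hr⟩ := Cardinal.exists_ord_eq κ
  let Uc : κ → ℕ → Set X := fun c k => ⋃ n ∈ c k, B n
  have hUo : ∀ c k, IsOpen (Uc c k) := fun c k => isOpen_biUnion fun n _ => hBo n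
  let P : κ → Set X → X → Prop := fun c S y =>
    ((∀ k, Dense (Uc c k)) → ∀ k, y ∈ Uc c k) ∧ ∀ i, y ∉ N i ⊔ Submodule.span ℂ S
  have hP : ∀ (c : κ) (S : Set X), #S < 𝔠 → ∃ y, P c S y := by
    intro c S hS
    by_cases hc : ∀ k, Dense (Uc c k)
    · obtain ⟨y, hy1, hy2⟩ := exists_good N γ hγ hli (Uc c) (hUo c) hc S hS
      exact ⟨y, fun _ => hy1, hy2⟩
    · obtain ⟨y, hy1, hy2⟩ := exists_good N γ hγ hli (fun _ => univ) (fun _ => isOpen_univ)
        (fun _ => dense_univ) S hS
      exact ⟨y, fun h => absurd h hc, hy2⟩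
  -- transfinite recursion
  let step : ∀ a : κ, (∀ b, r b a → X) → X := fun a ih =>
    if h : ∃ y, P a (range fun b : {b // r b a} => ih b.1 b.2) y then h.choose else 0
  let y : κ → X := wo.wf.fix step
  have hy : ∀ a, P a (y '' {b | r b a}) (y a) := by
    intro a
    have h1 : y a = step a (fun b _ => y b) := wo.wf.fix_eq step a
    have h2 : (range fun b : {b // r b a} => y b.1) = y '' {b | r b a} := by
      ext z; simp
    have h3 : #(range fun b : {b // r b a} => y b.1) < 𝔠 := by
      refine mk_range_le.trans_lt ?_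
      have := Cardinal.card_typein_lt (r := r) a hr
      rw [Ordinal.card_typein, hκ] at this
      exact this
    have h4 := hP a _ h3
    have h5 : y a = h4.choose := by
      rw [h1]
      exact dif_pos h4
    rw [h5, ← h2]
    exact h4.choose_spec
  -- the subspace
  set E : Submodule ℂ X := Submodule.span ℂ (range y) with hE
  have hyE : ∀ a, y a ∈ E := fun a => Submodule.subset_span (mem_range_self a)
  -- the generic property
  have hgen : ∀ U : ℕ → Set X, (∀ k, IsOpen (U k)) → (∀ k, Dense (U k)) →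
      ∃ x ∈ E, ∀ k, x ∈ U k := by
    intro U ho hd
    choose c hc using fun k => hcode (U k) (ho k)
    have hcU : ∀ k, Uc c k = U k := fun k => (hc k).symm
    refine ⟨y c, hyE c, fun k => ?_⟩
    have := (hy c).1 (fun k => by rw [hcU k]; exact hd k) k
    rwa [hcU k] at this
  have hdense : Dense (E : Set X) := by
    by_contra hnd
    have hcl : (E.topologicalClosure : Set X) ≠ Set.univ := by
      rw [Submodule.topologicalClosure_coe]
      intro h
      exact hnd (dense_iff_closure_eq.2 h)
    have hint : interior (E.topologicalClosure : Set X) = ∅ := by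
      by_contra hne
      have hne' : (interior (E.topologicalClosure : Set X)).Nonempty := nonempty_iff_ne_empty.2 hne
      exact hcl (by
        rw [Submodule.eq_top_of_nonempty_interior' _ hne']
        rfl)
    obtain ⟨x, hxE, hx⟩ := hgen (fun _ => (E.topologicalClosure : Set X)ᶜ)
      (fun _ => E.isClosed_topologicalClosure.isOpen_compl)
      (fun _ => interior_eq_empty_iff_dense_compl.1 hint)
    exact hx 0 (E.le_topologicalClosure hxE)
  refine ⟨E, hdense, ?_, ?_⟩
  · -- trivial intersection with the subspaces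
    intro i
    exact span_inter r y (N i) fun a => (hy a).2 i
  · -- the Baire property
    refine ⟨fun f hfo hfd => ?_⟩
    choose W hWo hW using fun n => isOpen_induced_iff.1 (hfo n)
    have hWd : ∀ n, Dense (W n) := by
      intro n
      have h1 : Dense (((↑) : E → X) '' f n) := hdense.denseRange_val.dense_image
        continuous_subtype_val (hfd n)
      refine h1.mono ?_
      rintro _ ⟨z, hz, rfl⟩
      rw [← hW n] at hz
      exact hz
    rw [dense_iff_inter_open]
    intro V' hV' ⟨v, hv⟩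
    obtain ⟨V, hVo, rfl⟩ := isOpen_induced_iff.1 hV'
    -- the countable family
    have hpos : ∀ m : ℕ, ((m : ℂ) + 1) ≠ 0 := fun m => Nat.cast_add_one_ne_zero m
    obtain ⟨x, hxE, hx⟩ : ∃ x ∈ E, ∀ m n : ℕ, (v : X) + ((m : ℂ) + 1)⁻¹ • x ∈ W n := by
      let φ : ℕ → (X ≃ₜ X) := fun m =>
        (Homeomorph.smulOfNeZero (((m : ℂ) + 1)⁻¹) (inv_ne_zero (hpos m))).trans
          (Homeomorph.addLeft (v : X))
      obtain ⟨x, hxE, hx⟩ := hgen
        (fun k => φ (Nat.unpair k).1 ⁻¹' (W (Nat.unpair k).2))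
        (fun k => (hWo _).preimage (φ _).continuous)
        (fun k => (hWd _).preimage (φ _).isOpenMap)
      refine ⟨x, hxE, fun m n => ?_⟩
      have := hx (Nat.pair m n)
      simpa [φ, Nat.unpair_pair] using this
    have hlim : Filter.Tendsto (fun m : ℕ => (v : X) + ((m : ℂ) + 1)⁻¹ • x) Filter.atTop
        (nhds ((v : X) + (0 : ℂ) • x)) := by
      refine tendsto_const_nhds.add (Filter.Tendsto.smul_const ?_ x)
      have h := (tendsto_one_div_add_atTop_nhds_zero_nat (𝕜 := ℂ))
      simpa [one_div] using h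
    rw [zero_smul, add_zero] at hlim
    have hVn : V ∈ nhds (v : X) := hVo.mem_nhds hv
    obtain ⟨m, hm⟩ := (hlim.eventually hVn).exists
    refine ⟨⟨(v : X) + ((m : ℂ) + 1)⁻¹ • x, E.add_mem v.2 (E.smul_mem _ hxE)⟩, hm, ?_⟩
    rw [mem_iInter]
    intro n
    rw [← hW n]
    exact hx m n

end Pool.Agent.H45.BaireSubspace
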