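import Mathlib

set_option autoImplicit false

open Set Filter Topology Metric

namespace Pool.Agent.H45.Holo

/-- If the Taylor coefficients of an analytic function at `q` are bounded by those of a geometric
series of ratio `1 / s` then the function continues analytically to the disc of radius `s`. -/
lemma exists_extension {F : ℂ → ℂ} {q : ℂ} {s C : ℝ} (hs : 0 < s) (hF : AnalyticAt ℂ F q)
    (hC : ∀ n : ℕ, ‖iteratedDeriv n F q‖ * s ^ n ≤ C * n.factorial) :
    ∃ Ψ : ℂ → ℂ, DifferentiableOn ℂ Ψ (ball q s) ∧ ∀ᶠ z in 𝓝 q, Ψ z = F z := by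
  set p := FormalMultilinearSeries.ofScalars ℂ fun n => iteratedDeriv n F q / (n.factorial : ℂ)
    with hp
  have h1 : HasFPowerSeriesAt F p q := hF.hasFPowerSeriesAt
  set r : NNReal := ⟨s, hs.le⟩ with hr
  have h2 : (r : ENNReal) ≤ p.radius := by
    refine p.le_radius_of_bound C fun n => ?_
    rw [hp, FormalMultilinearSeries.ofScalars_norm, norm_div]
    have h3 : ‖(n.factorial : ℂ)‖ = n.factorial := by simp
    rw [h3, div_mul_eq_mul_div, div_le_iff₀ (by exact_mod_cast n.factorial_pos)]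
    exact hC n
  have hr0 : (0 : ENNReal) < r := by
    rw [ENNReal.coe_pos]
    exact hs
  have h3 := p.hasFPowerSeriesOnBall (hr0.trans_le h2)
  refine ⟨fun z => p.sum (z - q), ?_, ?_⟩
  · intro z hz
    have h4 : z - q ∈ Metric.eball (0 : ℂ) p.radius := by
      refine Metric.eball_subset_eball h2 ?_
      rw [Metric.mem_eball, edist_dist, dist_zero_right]
      rw [mem_ball, dist_eq_norm] at hz
      have : (r : ENNReal) = ENNReal.ofReal s := by
        rw [ENNReal.ofReal, Real.toNNReal_of_nonneg hs.le]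
        rfl
      rw [this]
      exact (ENNReal.ofReal_lt_ofReal_iff hs).2 hz
    have h5 : AnalyticAt ℂ p.sum (z - q) := h3.analyticAt_of_mem h4
    exact (DifferentiableAt.comp (g := p.sum) (f := fun z => z - q) z h5.differentiableAt
      (by fun_prop)).differentiableWithinAt
  · filter_upwards [h1.eventually_hasSum_sub] with z hz
    exact hz.tsum_eq

/-- Cauchy estimates at a nearby centre. -/
lemma coeff_bound {F Ψ : ℂ → ℂ} {q : ℂ} {s R : ℝ} (hs : 0 < s) (hsR : s < R)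
    (hΨ : DifferentiableOn ℂ Ψ (ball q R)) (h : ∀ᶠ z in 𝓝 q, Ψ z = F z) :
    ∃ C : ℝ, ∀ n : ℕ, ‖iteratedDeriv n F q‖ * s ^ n ≤ C * n.factorial := by
  have hsub : closedBall q s ⊆ ball q R := closedBall_subset_ball hsR
  have hcont : ContinuousOn Ψ (closedBall q s) := hΨ.continuousOn.mono hsub
  obtain ⟨C, hC⟩ := (isCompact_closedBall q s).exists_bound_of_continuousOn hcont
  refine ⟨C, fun n => ?_⟩
  have h1 : iteratedDeriv n F q = iteratedDeriv n Ψ q :=
    (Filter.EventuallyEq.iteratedDeriv_eq n h).symm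
  have h2 := Complex.norm_iteratedDeriv_le_of_forall_mem_sphere_norm_le n hs
    (f := Ψ) (c := q) (C := C) ((hΨ.mono hsub).diffContOnCl_ball (subset_refl _))
    (fun z hz => hC z (sphere_subset_closedBall hz))
  rw [h1]
  have hsn : 0 < s ^ n := pow_pos hs n
  rw [le_div_iff₀ hsn] at h2
  linarith

/-- Exit point lemma: a function that is holomorphic on the open set `G` and whose modulus is
bounded near the boundary, and that becomes holomorphic near the disc `ball q s` after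
multiplication by a nonzero entire function, coincides near points of `G` close to some point
outside of `G` with a function holomorphic there. -/
lemma exit_point {G : Set ℂ} (hG : IsOpen G) {F m Ψ : ℂ → ℂ} (hF : DifferentiableOn ℂ F G)
    (hm : Differentiable ℂ m) (hm0 : ∃ z, m z ≠ 0)
    (hbdd : ∀ a ∈ closure G, ∃ C : ℝ, ∀ᶠ z in 𝓝 a, z ∈ G → ‖F z‖ ≤ C)
    {q a : ℂ} {s : ℝ} (hq : q ∈ G) (ha : a ∉ G) (has : ‖a - q‖ < s)
    (hΨ : DifferentiableOn ℂ Ψ (ball q s)) (h : ∀ᶠ z in 𝓝 q, Ψ z = m z * F z) :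
    ∃ (b : ℂ) (r : ℝ) (Φ : ℂ → ℂ) (w : ℂ), b ∉ G ∧ 0 < r ∧ DifferentiableOn ℂ Φ (ball b (3 * r)) ∧
      w ∈ G ∧ w ∈ ball b r ∧ ∀ᶠ z in 𝓝 w, Φ z = F z := by
  -- the segment
  set σ : ℝ → ℂ := fun t => q + (t : ℂ) * (a - q) with hσ
  have hσc : Continuous σ := by fun_prop
  have hσball : ∀ t ∈ Icc (0 : ℝ) 1, σ t ∈ ball q s := by
    intro t ht
    rw [mem_ball, dist_eq_norm]
    simp only [hσ, add_sub_cancel_left, norm_mul, Complex.norm_real, Real.norm_eq_abs,
      abs_of_nonneg ht.1]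
    nlinarith [ht.2, norm_nonneg (a - q), ht.1]
  set Z : Set ℝ := Icc 0 1 ∩ σ ⁻¹' Gᶜ with hZ
  have hZcomp : IsCompact Z := isCompact_Icc.inter_right (hG.isClosed_compl.preimage hσc)
  have hZne : Z.Nonempty := ⟨1, ⟨zero_le_one, le_rfl⟩, by simp [hσ, ha]⟩
  obtain ⟨τ, hτZ, hτmin⟩ := hZcomp.exists_isLeast hZne
  have hτ0 : τ ≠ 0 := by
    rintro rfl
    have := hτZ.2
    simp [hσ, hq] at this
  have hτpos : 0 < τ := lt_of_le_of_ne hτZ.1.1 (Ne.symm hτ0)
  set b : ℂ := σ τ with hb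
  have hbG : b ∉ G := hτZ.2
  have hbball : b ∈ ball q s := hσball τ hτZ.1
  have hlt : ∀ t, 0 ≤ t → t < τ → σ t ∈ G := by
    intro t h0 h1
    by_contra hcon
    exact absurd (hτmin ⟨⟨h0, h1.le.trans hτZ.1.2⟩, hcon⟩) (not_le.2 h1)
  have hne : a - q ≠ 0 := by
    intro h0
    apply ha
    rw [sub_eq_zero.1 h0]
    exact hq
  -- points of the segment accumulate at `b`
  have htend : Tendsto σ (𝓝[<] τ) (𝓝[≠] b) := by
    rw [tendsto_nhdsWithin_iff]
    refine ⟨(hσc.tendsto τ).mono_left nhdsWithin_le_nhds, ?_⟩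
    filter_upwards [self_mem_nhdsWithin] with t ht
    simp only [mem_compl_iff, mem_singleton_iff, hb, hσ, add_right_inj]
    intro h1
    have h2 := mul_right_cancel₀ hne h1
    have h3 : t = τ := by exact_mod_cast h2
    exact (ne_of_lt ht) h3
  have hmemG : ∀ᶠ t in 𝓝[<] τ, σ t ∈ G := by
    have : Ioo 0 τ ∈ 𝓝[<] τ := Ioo_mem_nhdsLT hτpos
    filter_upwards [this] with t ht
    exact hlt t ht.1.le ht.2
  have hbcl : b ∈ closure G :=
    mem_closure_of_tendsto (htend.mono_right nhdsWithin_le_nhds) hmemG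
  -- analyticity
  have hFan : AnalyticOnNhd ℂ F G := hF.analyticOnNhd hG
  have hΨan : AnalyticOnNhd ℂ Ψ (ball q s) := hΨ.analyticOnNhd isOpen_ball
  have hman : ∀ z, AnalyticAt ℂ m z := fun z => hm.analyticAt z
  -- agreement near the points of the half open segment
  have hagree : ∀ t, 0 ≤ t → t < τ → ∀ᶠ z in 𝓝 (σ t), Ψ z = m z * F z := by
    set S : Set ℂ := σ '' Ico 0 τ with hS
    have hSpre : IsPreconnected S := isPreconnected_Ico.image σ hσc.continuousOn
    have hSG : S ⊆ G := by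
      rintro _ ⟨t, ht, rfl⟩
      exact hlt t ht.1 ht.2
    have hSball : S ⊆ ball q s := by
      rintro _ ⟨t, ht, rfl⟩
      exact hσball t ⟨ht.1, ht.2.le.trans hτZ.1.2⟩
    have hqS : q ∈ S := ⟨0, ⟨le_rfl, hτpos⟩, by simp [hσ]⟩
    have heq : EqOn Ψ (fun z => m z * F z) S :=
      AnalyticOnNhd.eqOn_of_preconnected_of_eventuallyEq (hΨan.mono hSball)
        (fun z hz => (hman z).mul (hFan z (hSG hz))) hSpre hqS h
    intro t h0 h1
    have hGt := hlt t h0 h1
    have hbt := hσball t ⟨h0, h1.le.trans hτZ.1.2⟩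
    refine (AnalyticAt.frequently_eq_iff_eventually_eq (g := fun z => m z * F z) (hΨan _ hbt)
      ((hman _).mul (hFan _ hGt))).1 ?_
    have htend' : Tendsto σ (𝓝[>] t) (𝓝[≠] (σ t)) := by
      rw [tendsto_nhdsWithin_iff]
      refine ⟨(hσc.tendsto t).mono_left nhdsWithin_le_nhds, ?_⟩
      filter_upwards [self_mem_nhdsWithin] with t' ht'
      simp only [mem_compl_iff, mem_singleton_iff, hσ, add_right_inj]
      intro h1
      have h2 := mul_right_cancel₀ hne h1
      have h3 : t' = t := by exact_mod_cast h2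
      exact (ne_of_gt ht') h3
    refine htend'.frequently ?_
    have : ∀ᶠ t' in 𝓝[>] t, Ψ (σ t') = m (σ t') * F (σ t') := by
      have : Ioo t τ ∈ 𝓝[>] t := Ioo_mem_nhdsGT h1
      filter_upwards [this] with t' ht'
      exact heq ⟨t', ⟨h0.trans ht'.1.le, ht'.2⟩, rfl⟩
    exact this.frequently
  -- the multiplier has isolated zeros
  have hmne : ∀ᶠ z in 𝓝[≠] b, m z ≠ 0 := by
    rcases (hman b).eventually_eq_zero_or_eventually_ne_zero with h0 | h0
    · exfalso
      obtain ⟨z, hz⟩ := hm0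
      have h1 : AnalyticOnNhd ℂ m univ := fun z _ => hman z
      have h2 : AnalyticOnNhd ℂ (fun _ : ℂ => (0 : ℂ)) univ := analyticOnNhd_const
      exact hz (AnalyticOnNhd.eqOn_of_preconnected_of_eventuallyEq h1 h2 isPreconnected_univ
        (mem_univ b) h0 (mem_univ z))
    · exact h0
  -- the quotient is meromorphic with nonnegative order
  have hMer : MeromorphicAt (Ψ / m) b := (hΨan b hbball).meromorphicAt.div (hman b).meromorphicAt
  have hord : 0 ≤ meromorphicOrderAt (Ψ / m) b := by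
    by_contra hcon
    rw [not_le] at hcon
    have h1 := tendsto_cobounded_of_meromorphicOrderAt_neg hcon
    obtain ⟨C, hC⟩ := hbdd b hbcl
    have h2 : ∀ᶠ z in 𝓝[≠] b, C < ‖(Ψ / m) z‖ := by
      have := tendsto_norm_cobounded_atTop.comp h1
      exact this.eventually_gt_atTop C
    have h3 : ∀ᶠ t in 𝓝[<] τ, C < ‖(Ψ / m) (σ t)‖ := htend.eventually h2
    have h4 : ∀ᶠ t in 𝓝[<] τ, m (σ t) ≠ 0 := htend.eventually hmne
    have h5 : ∀ᶠ t in 𝓝[<] τ, σ t ∈ G → ‖F (σ t)‖ ≤ C :=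
      (htend.mono_right nhdsWithin_le_nhds).eventually hC
    have h6 : ∀ᶠ t in 𝓝[<] τ, Ψ (σ t) = m (σ t) * F (σ t) := by
      have : Ioo 0 τ ∈ 𝓝[<] τ := Ioo_mem_nhdsLT hτpos
      filter_upwards [this] with t ht
      exact (hagree t ht.1.le ht.2).self_of_nhds
    obtain ⟨t, ht3, ht4, ht5, ht6, htG⟩ := (h3.and (h4.and (h5.and (h6.and hmemG)))).exists
    rw [Pi.div_apply, ht6, mul_div_cancel_left₀ _ ht4] at ht3
    exact absurd (ht5 htG) (not_le.2 ht3)
  obtain ⟨Φ, hΦan, hΦ⟩ := (hMer.meromorphicOrderAt_nonneg_iff).1 hord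
  -- radius
  obtain ⟨ε, hε, hεΦ⟩ := Metric.eventually_nhds_iff_ball.1 hΦan.eventually_analyticAt
  refine ⟨b, ε / 3, Φ, ?_⟩
  have h1 : ∀ᶠ z in 𝓝[≠] b, (Ψ / m) z = Φ z ∧ m z ≠ 0 := by
    filter_upwards [hΦ, hmne] with z h1 h2
    exact ⟨h1, h2⟩
  rw [eventually_nhdsWithin_iff, Metric.eventually_nhds_iff_ball] at h1
  obtain ⟨δ, hδ, hδ'⟩ := h1
  have h2 : ∀ᶠ t in 𝓝[<] τ, σ t ∈ ball b (min (ε / 3) δ) := by
    have hn : ball b (min (ε / 3) δ) ∈ 𝓝 b := ball_mem_nhds _ (by positivity)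
    exact (htend.mono_right nhdsWithin_le_nhds).eventually hn
  have h3 : ∀ᶠ t in 𝓝[<] τ, σ t ≠ b := by
    exact (tendsto_nhdsWithin_iff.1 htend).2
  have h4 : ∀ᶠ t in 𝓝[<] τ, t ∈ Ioo 0 τ := Ioo_mem_nhdsLT hτpos
  obtain ⟨t, ht2, ht3, ht4⟩ := (h2.and (h3.and h4)).exists
  refine ⟨σ t, hbG, by positivity, ?_, hlt t ht4.1.le ht4.2,
    ball_subset_ball (min_le_left _ _) ht2, ?_⟩
  · intro z hz
    have : 3 * (ε / 3) = ε := by ring
    rw [this] at hz
    exact (hεΦ z hz).differentiableAt.differentiableWithinAt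
  · have h5 : ball b δ ∩ {b}ᶜ ∈ 𝓝 (σ t) := by
      refine (isOpen_ball.inter isOpen_compl_singleton).mem_nhds ⟨?_, ht3⟩
      exact ball_subset_ball (min_le_right _ _) ht2
    filter_upwards [h5, hagree t ht4.1.le ht4.2] with z hz1 hz2
    obtain ⟨h6, h7⟩ := hδ' z hz1.1 hz1.2
    rw [← h6, Pi.div_apply, hz2, mul_div_cancel_left₀ _ h7]

end Pool.Agent.H45.Holo
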