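import Mathlib
import Pool.Agent.H45.BaireSubspace
import Pool.Agent.H45.Holo

set_option autoImplicit false

open Set Filter Topology Metric TopologicalSpace

namespace Pool.Agent.H45.Jets

variable (G : Opens ℂ)

/-- `A^∞(G)` in the form of jets: sequences `(g_j)` of continuous functions on the closure of `G`
such that on `G` each `g_j` is the `j`-th derivative of one holomorphic function. -/
def AInf : Submodule ℂ (ℕ → C(closure (G : Set ℂ), ℂ)) where
  carrier := {g | ∃ F : ℂ → ℂ, DifferentiableOn ℂ F G ∧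
    ∀ (j : ℕ) (z : ℂ) (hz : z ∈ (G : Set ℂ)), g j ⟨z, subset_closure hz⟩ = iteratedDeriv j F z}
  zero_mem' := by
    refine ⟨0, differentiableOn_const 0, fun j z hz => ?_⟩
    have : iteratedDeriv j (0 : ℂ → ℂ) z = 0 := by
      simp [Pi.zero_def]
    simp [this]
  add_mem' := by
    rintro g h ⟨F, hF, hgF⟩ ⟨H, hH, hhH⟩
    refine ⟨F + H, hF.add hH, fun j z hz => ?_⟩
    have h1 : ContDiffAt ℂ j F z := (hF.contDiffOn G.isOpen).contDiffAt (G.isOpen.mem_nhds hz)
    have h2 : ContDiffAt ℂ j H z := (hH.contDiffOn G.isOpen).contDiffAt (G.isOpen.mem_nhds hz)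
    rw [iteratedDeriv_add h1 h2, ← hgF j z hz, ← hhH j z hz]
    rfl
  smul_mem' := by
    rintro c g ⟨F, hF, hgF⟩
    refine ⟨c • F, hF.const_smul c, fun j z hz => ?_⟩
    have h1 : ContDiffAt ℂ j F z := (hF.contDiffOn G.isOpen).contDiffAt (G.isOpen.mem_nhds hz)
    rw [iteratedDeriv_const_smul h1 c, ← hgF j z hz]
    rfl

variable {G}

/-- Extension by zero. -/
noncomputable def ex (g : C(closure (G : Set ℂ), ℂ)) (z : ℂ) : ℂ :=
  open Classical in if h : z ∈ closure (G : Set ℂ) then g ⟨z, h⟩ else 0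

lemma ex_of_mem (g : C(closure (G : Set ℂ), ℂ)) {z : ℂ} (h : z ∈ (G : Set ℂ)) :
    ex g z = g ⟨z, subset_closure h⟩ := dif_pos _

lemma ex_of_mem' (g : C(closure (G : Set ℂ), ℂ)) {z : ℂ} (h : z ∈ closure (G : Set ℂ)) :
    ex g z = g ⟨z, h⟩ := dif_pos _

lemma continuousOn_ex (g : C(closure (G : Set ℂ), ℂ)) : ContinuousOn (ex g) (closure (G : Set ℂ)) := by
  rw [continuousOn_iff_continuous_domRestrict]
  refine g.continuous.congr fun z => ?_
  exact (ex_of_mem' g z.2).symm

lemma eventually_mem {z : ℂ} (h : z ∈ (G : Set ℂ)) : ∀ᶠ w in 𝓝 z, w ∈ (G : Set ℂ) :=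
  G.isOpen.mem_nhds h

/-- Characterisation of the jets. -/
lemma mem_iff (g : ℕ → C(closure (G : Set ℂ), ℂ)) :
    g ∈ AInf G ↔ ∀ (j : ℕ) (z : ℂ), z ∈ (G : Set ℂ) → HasDerivAt (ex (g j)) (ex (g (j + 1)) z) z := by
  constructor
  · rintro ⟨F, hF, hgF⟩ j z hz
    have h0 : ∀ i, ∀ w ∈ (G : Set ℂ), ex (g i) w = iteratedDeriv i F w := fun i w hw => by
      rw [ex_of_mem _ hw, hgF i w hw]
    have h1 : ex (g j) =ᶠ[𝓝 z] iteratedDeriv j F := by
      filter_upwards [eventually_mem hz] with w hw using h0 j w hw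
    rw [h0 (j + 1) z hz]
    refine HasDerivAt.congr_of_eventuallyEq ?_ h1
    rw [iteratedDeriv_succ]
    have h2 : AnalyticAt ℂ F z := hF.analyticAt (G.isOpen.mem_nhds hz)
    have h3 : AnalyticAt ℂ (iteratedDeriv j F) z := by
      rw [iteratedDeriv_eq_iterate]
      exact h2.iterated_deriv j
    exact h3.differentiableAt.hasDerivAt
  · intro h
    refine ⟨ex (g 0), fun z hz => (h 0 z hz).differentiableAt.differentiableWithinAt, ?_⟩
    intro j
    have key : ∀ z ∈ (G : Set ℂ), iteratedDeriv j (ex (g 0)) z = ex (g j) z := by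
      induction j with
      | zero => intro z _; simp
      | succ j ih =>
        intro z hz
        rw [iteratedDeriv_succ]
        have h1 : iteratedDeriv j (ex (g 0)) =ᶠ[𝓝 z] ex (g j) := by
          filter_upwards [eventually_mem hz] with w hw using ih w hw
        rw [h1.deriv_eq]
        exact (h j z hz).deriv
    intro z hz
    rw [key z hz, ex_of_mem _ hz]

lemma iteratedDeriv_ex {g : ℕ → C(closure (G : Set ℂ), ℂ)} (hg : g ∈ AInf G) (j : ℕ) {z : ℂ}
    (hz : z ∈ (G : Set ℂ)) : iteratedDeriv j (ex (g 0)) z = ex (g j) z := by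
  rw [mem_iff] at hg
  have key : ∀ z ∈ (G : Set ℂ), iteratedDeriv j (ex (g 0)) z = ex (g j) z := by
    clear hz
    induction j with
    | zero => intro z _; simp
    | succ j ih =>
      intro z hz
      rw [iteratedDeriv_succ]
      have h1 : iteratedDeriv j (ex (g 0)) =ᶠ[𝓝 z] ex (g j) := by
        filter_upwards [eventually_mem hz] with w hw using ih w hw
      rw [h1.deriv_eq]
      exact (hg j z hz).deriv
  exact key z hz

lemma differentiableOn_ex {g : ℕ → C(closure (G : Set ℂ), ℂ)} (hg : g ∈ AInf G) :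
    DifferentiableOn ℂ (ex (g 0)) (G : Set ℂ) := fun z hz =>
  (((mem_iff g).1 hg) 0 z hz).differentiableAt.differentiableWithinAt

instance : LocallyCompactSpace (closure (G : Set ℂ)) := isClosed_closure.locallyCompactSpace

lemma isClosed_AInf : IsClosed (AInf G : Set (ℕ → C(closure (G : Set ℂ), ℂ))) := by
  rw [← closure_subset_iff_isClosed]
  intro g hg
  rw [SetLike.mem_coe, mem_iff]
  intro j z hz
  rw [mem_closure_iff_nhdsWithin_neBot] at hg
  set l := 𝓝[(AInf G : Set (ℕ → C(closure (G : Set ℂ), ℂ)))] g with hl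
  have hlim : ∀ i, Tendsto (fun h : ℕ → C(closure (G : Set ℂ), ℂ) => h i) l (𝓝 (g i)) := fun i =>
    (continuous_apply i).continuousAt.tendsto.mono_left nhdsWithin_le_nhds
  have hunif : ∀ i, TendstoLocallyUniformlyOn
      (fun (h : ℕ → C(closure (G : Set ℂ), ℂ)) => ex (h i)) (ex (g i)) l (G : Set ℂ) := by
    intro i
    have h1 := ContinuousMap.tendsto_iff_tendstoLocallyUniformly.1 (hlim i)
    intro u hu x hx
    obtain ⟨t, ht, ht'⟩ := h1 u hu ⟨x, subset_closure hx⟩
    rw [nhds_subtype_eq_comap, mem_comap] at ht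
    obtain ⟨t', ht1, ht2⟩ := ht
    refine ⟨t' ∩ G, inter_mem (mem_nhdsWithin_of_mem_nhds ht1) self_mem_nhdsWithin, ?_⟩
    filter_upwards [ht'] with h hh y hy
    rw [ex_of_mem _ hy.2, ex_of_mem _ hy.2]
    exact hh ⟨y, subset_closure hy.2⟩ (ht2 hy.1)
  refine hasDerivAt_of_tendstoLocallyUniformlyOn
    (f := fun (h : ℕ → C(closure (G : Set ℂ), ℂ)) => ex (h j)) G.isOpen (hunif (j + 1)) ?_ ?_ hz
  · filter_upwards [self_mem_nhdsWithin] with h hh x hx
    exact (mem_iff h).1 hh j x hx
  · intro x hx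
    exact (hunif j).tendsto_at hx

variable (G) in
/-- The space of jets as a type. -/
def AI : Type := AInf G

noncomputable instance : AddCommGroup (AI G) := inferInstanceAs (AddCommGroup (AInf G))

noncomputable instance : Module ℂ (AI G) := inferInstanceAs (Module ℂ (AInf G))

instance : TopologicalSpace (AI G) := inferInstanceAs (TopologicalSpace (AInf G))

instance : IsTopologicalAddGroup (AI G) := inferInstanceAs (IsTopologicalAddGroup (AInf G))

instance : ContinuousSMul ℂ (AI G) := inferInstanceAs (ContinuousSMul ℂ (AInf G))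

instance : BaireSpace (AI G) := by
  have h : IsCompletelyMetrizableSpace (AInf G) := isClosed_AInf.isCompletelyMetrizableSpace
  exact (inferInstance : BaireSpace (AInf G))

instance : SecondCountableTopology (AI G) :=
  inferInstanceAs (SecondCountableTopology
    ((AInf G : Set (ℕ → C(closure (G : Set ℂ), ℂ))) : Type))

/-- The underlying sequence. -/
def AI.val (g : AI G) : ℕ → C(closure (G : Set ℂ), ℂ) := Subtype.val (p := fun x => x ∈ AInf G) g

lemma AI.mem (g : AI G) : g.val ∈ AInf G := Subtype.property (p := fun x => x ∈ AInf G) g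

lemma AI.continuous_val : Continuous (AI.val : AI G → (ℕ → C(closure (G : Set ℂ), ℂ))) :=
  continuous_subtype_val (p := fun x => x ∈ AInf G)

lemma AI.isInducing_val : IsInducing (AI.val : AI G → (ℕ → C(closure (G : Set ℂ), ℂ))) :=
  ⟨rfl⟩

/-- Constructor. -/
def AI.mk (g : ℕ → C(closure (G : Set ℂ), ℂ)) (hg : g ∈ AInf G) : AI G := ⟨g, hg⟩

lemma AI.val_mk (g : ℕ → C(closure (G : Set ℂ), ℂ)) (hg : g ∈ AInf G) : (AI.mk g hg).val = g := rfl

lemma AI.val_add (g h : AI G) : (g + h).val = g.val + h.val := rfl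

lemma AI.val_smul (c : ℂ) (g : AI G) : (c • g).val = c • g.val := rfl

lemma AI.val_zero : (0 : AI G).val = 0 := rfl

lemma AI.ext {g h : AI G} (hgh : g.val = h.val) : g = h := Subtype.ext hgh

end Pool.Agent.H45.Jets
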