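import Mathlib
import Pool.Agent.H45.Jets

set_option autoImplicit false

open Set Filter Topology Metric TopologicalSpace

namespace Pool.Agent.H45.Jets

variable {G : Opens ℂ}

/-- Elements whose Taylor coefficients at `q` are dominated by a geometric series. -/
def Nsub (q : closure (G : Set ℂ)) (s : ℝ) (hs : 0 ≤ s) : Submodule ℂ (AI G) where
  carrier := {g | ∃ C : ℝ, ∀ n : ℕ, ‖g.val n q‖ * s ^ n ≤ C * n.factorial}
  zero_mem' := ⟨0, fun n => by simp [AI.val_zero]⟩
  add_mem' := by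
    rintro g h ⟨C, hC⟩ ⟨D, hD⟩
    refine ⟨C + D, fun n => ?_⟩
    have h1 : ‖(g + h).val n q‖ ≤ ‖g.val n q‖ + ‖h.val n q‖ := norm_add_le _ _
    have h2 : 0 ≤ s ^ n := pow_nonneg hs n
    nlinarith [hC n, hD n, mul_le_mul_of_nonneg_right h1 h2]
  smul_mem' := by
    rintro c g ⟨C, hC⟩
    refine ⟨‖c‖ * C, fun n => ?_⟩
    have h1 : ‖(c • g).val n q‖ = ‖c‖ * ‖g.val n q‖ := norm_smul c _
    rw [h1, mul_assoc, mul_assoc]
    exact mul_le_mul_of_nonneg_left (hC n) (norm_nonneg c)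

/-- Complex numbers with rational coordinates. -/
def cq (p : ℚ × ℚ) : ℂ := ⟨(p.1 : ℝ), (p.2 : ℝ)⟩

lemma denseRange_cq : DenseRange cq := by
  have h1 : DenseRange (Prod.map (fun x : ℚ => (x : ℝ)) (fun x : ℚ => (x : ℝ))) :=
    DenseRange.prodMap (Rat.denseRange_cast (𝕜 := ℝ)) (Rat.denseRange_cast (𝕜 := ℝ))
  have h2 : DenseRange (Complex.equivRealProdCLM.symm : ℝ × ℝ → ℂ) :=
    Complex.equivRealProdCLM.symm.surjective.denseRange
  have h3 := h2.comp h1 Complex.equivRealProdCLM.symm.continuous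
  have h4 : (Complex.equivRealProdCLM.symm : ℝ × ℝ → ℂ) ∘
      (Prod.map (fun x : ℚ => (x : ℝ)) (fun x : ℚ => (x : ℝ))) = cq := by
    funext p
    apply Complex.ext <;> simp [cq]
  rwa [h4] at h3

variable (G) in
/-- The countable index set. -/
def Idx : Type := {p : (ℚ × ℚ) × ℚ // 0 < p.2 ∧ cq p.1 ∈ (G : Set ℂ) ∧
  ∃ a : ℂ, a ∉ (G : Set ℂ) ∧ ‖a - cq p.1‖ < (p.2 : ℝ)}

instance : Countable (Idx G) := inferInstanceAs (Countable (Subtype _))

/-- The countable family of subspaces. -/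
noncomputable def NN (i : Idx G) : Submodule ℂ (AI G) :=
  Nsub ⟨cq i.1.1, subset_closure i.2.2.1⟩ (i.1.2 : ℝ) (by exact_mod_cast i.2.1.le)

lemma mem_NN (i : Idx G) (g : AI G) : g ∈ NN i ↔
    ∃ C : ℝ, ∀ n : ℕ, ‖g.val n ⟨cq i.1.1, subset_closure i.2.2.1⟩‖ * (i.1.2 : ℝ) ^ n
      ≤ C * n.factorial := Iff.rfl

/-- The local lemma. -/
lemma exists_mem_NN (g : AI G) {b w : ℂ} {r : ℝ} {Φ : ℂ → ℂ} (hb : b ∉ (G : Set ℂ)) (hr : 0 < r)
    (hΦ : DifferentiableOn ℂ Φ (ball b (3 * r))) (hw : w ∈ (G : Set ℂ)) (hwb : w ∈ ball b r)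
    (h : ∀ᶠ z in 𝓝 w, Φ z = ex (g.val 0) z) : ∃ i : Idx G, g ∈ NN i := by
  have h1 : ∀ᶠ q in 𝓝 w, (∀ᶠ z in 𝓝 q, Φ z = ex (g.val 0) z) ∧ q ∈ (G : Set ℂ) ∧ q ∈ ball b r :=
    (eventually_eventually_nhds.2 h).and ((eventually_mem hw).and (isOpen_ball.mem_nhds hwb))
  obtain ⟨p, hp⟩ := denseRange_cq.exists_mem_open isOpen_interior
    (⟨w, mem_interior_iff_mem_nhds.2 h1⟩ :
      (interior {q | (∀ᶠ z in 𝓝 q, Φ z = ex (g.val 0) z) ∧ q ∈ (G : Set ℂ) ∧ q ∈ ball b r}).Nonempty)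
  obtain ⟨hp1, hp2, hp3⟩ := interior_subset hp
  obtain ⟨s, hs1, hs2⟩ := exists_rat_btwn (show r < 2 * r by linarith)
  have hs0 : (0 : ℝ) < s := hr.trans hs1
  have hdist : ‖b - cq p‖ < s := by
    rw [← dist_eq_norm, dist_comm]
    exact (mem_ball.1 hp3).trans hs1
  refine ⟨⟨(p, s), by exact_mod_cast hs0, hp2, b, hb, hdist⟩, ?_⟩
  have hsub : ball (cq p) (2 * r) ⊆ ball b (3 * r) := by
    apply ball_subset_ball'
    have := mem_ball.1 hp3
    linarith
  obtain ⟨C, hC⟩ := Holo.coeff_bound hs0 hs2 (hΦ.mono hsub) hp1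
  refine ⟨C, fun n => ?_⟩
  have h2 := hC n
  rw [iteratedDeriv_ex g.mem n hp2, ex_of_mem _ hp2] at h2
  exact h2

/-- Elements outside of all the subspaces do not extend. -/
lemma not_extendable (g : AI G) (hg : ∀ i : Idx G, g ∉ NN i) (hne : (G : Set ℂ).Nonempty) :
    ¬ ∃ (Ω : Set ℂ) (F : ℂ → ℂ), IsOpen Ω ∧ IsConnected Ω ∧ (G : Set ℂ) ⊂ Ω ∧
      DifferentiableOn ℂ F Ω ∧
      ∀ (z : ℂ) (hz : z ∈ (G : Set ℂ)), F z = g.val 0 ⟨z, subset_closure hz⟩ := by
  rintro ⟨Ω, F, hΩo, hΩc, hsub, hF, hFg⟩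
  obtain ⟨a, haΩ, hacl, haG⟩ : ∃ a ∈ Ω, a ∈ closure (G : Set ℂ) ∧ a ∉ (G : Set ℂ) := by
    by_contra hcon
    push Not at hcon
    have h1 : Ω ⊆ (G : Set ℂ) ∪ (closure (G : Set ℂ))ᶜ := by
      intro z hz
      by_cases hzc : z ∈ closure (G : Set ℂ)
      · exact Or.inl (hcon z hz hzc)
      · exact Or.inr hzc
    obtain ⟨z0, hz0⟩ := hne
    have h2 := hΩc.isPreconnected.subset_left_of_subset_union G.isOpen
      isClosed_closure.isOpen_compl (disjoint_compl_right.mono_left subset_closure) h1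
      ⟨z0, hsub.1 hz0, hz0⟩
    exact hsub.2 h2
  obtain ⟨R, hR, hRΩ⟩ := Metric.isOpen_iff.1 hΩo a haΩ
  have hR3 : 0 < R / 3 := by positivity
  obtain ⟨w, hwG, hwa⟩ := Metric.mem_closure_iff.1 hacl (R / 3) hR3
  obtain ⟨i, hi⟩ := exists_mem_NN g (b := a) (w := w) (r := R / 3) (Φ := F) haG hR3
    (by
      have : 3 * (R / 3) = R := by ring
      rw [this]
      exact hF.mono hRΩ) hwG (by rw [mem_ball, dist_comm]; exact hwa)
    (by
      filter_upwards [eventually_mem hwG] with z hz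
      rw [ex_of_mem _ hz]
      exact hFg z hz)
  exact hg i hi

/-- Jets of a function analytic near the closure. -/
noncomputable def ofOuter (F : ℂ → ℂ) (hF : ∀ z ∈ closure (G : Set ℂ), AnalyticAt ℂ F z) : AI G :=
  AI.mk (fun j => ⟨fun z => iteratedDeriv j F z, by
      rw [continuous_iff_continuousAt]
      intro z
      have h : AnalyticAt ℂ (iteratedDeriv j F) z := by
        rw [iteratedDeriv_eq_iterate]
        exact (hF z z.2).iterated_deriv j
      exact h.continuousAt.comp continuous_subtype_val.continuousAt⟩)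
    ⟨F, fun z hz => (hF z (subset_closure hz)).differentiableAt.differentiableWithinAt,
      fun _ _ _ => rfl⟩

lemma NN_ne_top (hreg : interior (closure (G : Set ℂ)) = G) (i : Idx G) : NN i ≠ ⊤ := by
  intro htop
  obtain ⟨⟨p, s⟩, hs, hq, a, haG, has⟩ := i
  simp only at hs hq has
  have hs' : (0 : ℝ) < s := by exact_mod_cast hs
  -- an exterior point
  obtain ⟨b, hbball, hbG⟩ : ∃ b ∈ ball (cq p) (s : ℝ), b ∉ closure (G : Set ℂ) := by
    by_contra hcon
    push Not at hcon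
    have h1 : ball (cq p) (s : ℝ) ⊆ interior (closure (G : Set ℂ)) :=
      interior_maximal hcon isOpen_ball
    rw [hreg] at h1
    apply haG
    apply h1
    rw [mem_ball, dist_eq_norm]
    exact has
  have hne : ∀ z ∈ closure (G : Set ℂ), z - b ≠ 0 := by
    intro z hz h0
    rw [sub_eq_zero.1 h0] at hz
    exact hbG hz
  have hF : ∀ z ∈ closure (G : Set ℂ), AnalyticAt ℂ (fun z => (z - b)⁻¹) z := by
    intro z hz
    exact (analyticAt_id.sub analyticAt_const).inv (hne z hz)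
  have hmem : (ofOuter _ hF) ∈ NN ⟨(p, s), hs, hq, a, haG, has⟩ := by
    rw [htop]; trivial
  obtain ⟨C, hC⟩ := hmem
  have hqcl : cq p ∈ closure (G : Set ℂ) := subset_closure hq
  obtain ⟨Ψ, hΨ, hΨF⟩ := Holo.exists_extension (F := fun z => (z - b)⁻¹) (q := cq p) (s := s)
    (C := C) hs' (hF _ hqcl) (fun n => hC n)
  have h2 : AnalyticOnNhd ℂ (fun z => (z - b) * Ψ z) (ball (cq p) (s : ℝ)) := by
    intro z hz
    exact (analyticAt_id.sub analyticAt_const).mul (hΨ.analyticAt (isOpen_ball.mem_nhds hz))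
  have h3 : AnalyticOnNhd ℂ (fun _ : ℂ => (1 : ℂ)) (ball (cq p) (s : ℝ)) := analyticOnNhd_const
  have h4 : (fun z => (z - b) * Ψ z) =ᶠ[𝓝 (cq p)] fun _ => (1 : ℂ) := by
    have h5 : ∀ᶠ z in 𝓝 (cq p), z - b ≠ 0 := by
      have hc : ContinuousAt (fun z : ℂ => z - b) (cq p) := by fun_prop
      exact hc.eventually_ne (hne _ hqcl)
    filter_upwards [hΨF, h5] with z hz hz'
    rw [hz, mul_inv_cancel₀ hz']
  have h5 := AnalyticOnNhd.eqOn_of_preconnected_of_eventuallyEq h2 h3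
    (convex_ball _ _).isPreconnected (mem_ball_self hs') h4 hbball
  simp at h5

/-- Existence of an element outside of all the subspaces. -/
lemma exists_generic (hreg : interior (closure (G : Set ℂ)) = G) :
    ∃ g : AI G, ∀ i : Idx G, g ∉ NN i := by
  by_contra hcon
  push Not at hcon
  have hcl : ∀ p : Idx G × ℕ, IsClosed {g : AI G | ∀ n : ℕ,
      ‖g.val n ⟨cq p.1.1.1, subset_closure p.1.2.2.1⟩‖ * (p.1.1.2 : ℝ) ^ n ≤ p.2 * n.factorial} := by
    intro p
    rw [ofPred_forall]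
    refine isClosed_iInter fun n => ?_
    refine isClosed_le ?_ continuous_const
    have h1 : Continuous fun g : AI G => g.val n := (continuous_apply n).comp AI.continuous_val
    have h2 : Continuous fun g : AI G => g.val n ⟨cq p.1.1.1, subset_closure p.1.2.2.1⟩ :=
      (continuous_eval_const _).comp h1
    exact h2.norm.mul continuous_const
  have hun : (⋃ p : Idx G × ℕ, {g : AI G | ∀ n : ℕ,
      ‖g.val n ⟨cq p.1.1.1, subset_closure p.1.2.2.1⟩‖ * (p.1.1.2 : ℝ) ^ n ≤ p.2 * n.factorial})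
      = univ := by
    rw [eq_univ_iff_forall]
    intro g
    obtain ⟨i, C, hC⟩ := hcon g
    obtain ⟨m, hm⟩ := exists_nat_ge C
    rw [mem_iUnion]
    refine ⟨(i, m), fun n => (hC n).trans ?_⟩
    exact mul_le_mul_of_nonneg_right hm (Nat.cast_nonneg _)
  obtain ⟨⟨i, m⟩, hi⟩ := nonempty_interior_of_iUnion_of_closed hcl hun
  apply NN_ne_top hreg i
  apply Submodule.eq_top_of_nonempty_interior'
  refine hi.mono (interior_mono ?_)
  intro g hg
  exact ⟨m, hg⟩

/-- Multiplication by an exponential, as jets. -/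
noncomputable def mulExpFun (g : ℕ → C(closure (G : Set ℂ), ℂ)) (t : ℝ) (j : ℕ) :
    C(closure (G : Set ℂ), ℂ) :=
  ⟨fun z => ∑ i ∈ Finset.range (j + 1),
    (j.choose i : ℂ) * ((t : ℂ) ^ i * Complex.exp (t * z)) * g (j - i) z, by fun_prop⟩

lemma mulExp_mem (g : AI G) (t : ℝ) : mulExpFun g.val t ∈ AInf G := by
  have hF : DifferentiableOn ℂ (fun z => Complex.exp (t * z)) (G : Set ℂ) := by fun_prop
  have hg := differentiableOn_ex g.mem
  refine ⟨fun z => Complex.exp (t * z) * ex (g.val 0) z, hF.mul hg, fun j z hz => ?_⟩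
  have h1 : ContDiffAt ℂ j (fun z => Complex.exp (t * z)) z :=
    (hF.contDiffOn G.isOpen).contDiffAt (G.isOpen.mem_nhds hz)
  have h2 : ContDiffAt ℂ j (ex (g.val 0)) z :=
    (hg.contDiffOn G.isOpen).contDiffAt (G.isOpen.mem_nhds hz)
  rw [iteratedDeriv_fun_mul h1 h2]
  simp only [mulExpFun, ContinuousMap.coe_mk]
  refine Finset.sum_congr rfl fun i _ => ?_
  rw [iteratedDeriv_ex g.mem _ hz, ex_of_mem _ hz, iteratedDeriv_cexp_const_mul]

/-- Multiplication by an exponential. -/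
noncomputable def mulExp (g : AI G) (t : ℝ) : AI G := AI.mk (mulExpFun g.val t) (mulExp_mem g t)

lemma mulExp_zero_apply (g : AI G) (t : ℝ) (z : closure (G : Set ℂ)) :
    (mulExp g t).val 0 z = Complex.exp (t * z) * g.val 0 z := by
  simp [mulExp, AI.val_mk, mulExpFun]

lemma continuous_mulExp (g : AI G) : Continuous (mulExp g) := by
  refine AI.isInducing_val.continuous_iff.2 ?_
  refine continuous_pi fun j => ?_
  refine ContinuousMap.continuous_of_continuous_uncurry _ ?_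
  have h : Continuous fun p : ℝ × closure (G : Set ℂ) => mulExpFun g.val p.1 j p.2 := by
    simp only [mulExpFun, ContinuousMap.coe_mk]
    fun_prop
  exact h

lemma val_sum (S : Finset ℝ) (c : ℝ → ℂ) (f : ℝ → AI G) :
    (∑ t ∈ S, c t • f t).val 0 = ∑ t ∈ S, c t • (f t).val 0 := by
  classical
  induction S using Finset.induction_on with
  | empty => rfl
  | insert a s has ih =>
    rw [Finset.sum_insert has, Finset.sum_insert has, AI.val_add, Pi.add_apply, ih,
      AI.val_smul, Pi.smul_apply]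

lemma linearIndependent_exp : LinearIndependent ℂ (fun (t : ℝ) (z : ℂ) => Complex.exp (t * z)) := by
  let χ : ℝ → (Multiplicative ℂ →* ℂ) := fun t =>
    { toFun := fun z => Complex.exp (t * z.toAdd)
      map_one' := by simp
      map_mul' := fun x y => by
        rw [← Complex.exp_add]
        congr 1
        rw [toAdd_mul]
        ring }
  have hχ : Function.Injective χ := by
    intro t t' h
    have h1 := DFunLike.congr_fun h (Multiplicative.ofAdd (1 : ℂ))
    simp only [χ, MonoidHom.coe_mk, OneHom.coe_mk, toAdd_ofAdd, mul_one] at h1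
    rw [← Complex.ofReal_exp, ← Complex.ofReal_exp] at h1
    exact Real.exp_injective (by exact_mod_cast h1)
  exact (linearIndependent_monoidHom (Multiplicative ℂ) ℂ).comp χ hχ

lemma linearIndependent_mulExp (g : AI G) (hg : ∀ i : Idx G, g ∉ NN i) (i : Idx G) :
    LinearIndependent ℂ (fun t => (NN i).mkQ (mulExp g t)) := by
  rw [linearIndependent_iff']
  intro S c hc
  -- the combination lies in the subspace
  have hmem : (∑ t ∈ S, c t • mulExp g t) ∈ NN i := by
    rw [← Submodule.ker_mkQ (NN i), LinearMap.mem_ker, map_sum]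
    simpa using hc
  -- the multiplier
  set m : ℂ → ℂ := fun z => ∑ t ∈ S, c t * Complex.exp (t * z) with hm
  have hmd : Differentiable ℂ m := by
    simp only [hm]
    fun_prop
  by_cases hm0 : ∃ z, m z ≠ 0
  · exfalso
    obtain ⟨C, hC⟩ := hmem
    have hi := i.2
    obtain ⟨hs, hq, a, haG, has⟩ := hi
    have hs' : (0 : ℝ) < i.1.2 := by exact_mod_cast hs
    set g' : AI G := ∑ t ∈ S, c t • mulExp g t with hg'
    have hval : ∀ z (hz : z ∈ (G : Set ℂ)), ex (g'.val 0) z = m z * ex (g.val 0) z := by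
      intro z hz
      rw [ex_of_mem _ hz, ex_of_mem _ hz, hg']
      have h1 : (∑ t ∈ S, c t • mulExp g t).val 0 =
          ∑ t ∈ S, c t • (mulExp g t).val 0 := by
        exact val_sum S c (mulExp g)
      rw [h1, ContinuousMap.sum_apply, hm]
      simp only
      rw [Finset.sum_mul]
      refine Finset.sum_congr rfl fun t _ => ?_
      rw [ContinuousMap.smul_apply, mulExp_zero_apply, smul_eq_mul, mul_assoc]
    have hFan : AnalyticAt ℂ (ex (g'.val 0)) (cq i.1.1) :=
      (differentiableOn_ex g'.mem).analyticAt (G.isOpen.mem_nhds hq)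
    obtain ⟨Ψ, hΨ, hΨF⟩ := Holo.exists_extension (F := ex (g'.val 0)) (q := cq i.1.1)
      (s := (i.1.2 : ℝ)) (C := C) hs' hFan (fun n => by
        rw [iteratedDeriv_ex g'.mem n hq, ex_of_mem _ hq]
        exact hC n)
    have hΨ' : ∀ᶠ z in 𝓝 (cq i.1.1), Ψ z = m z * ex (g.val 0) z := by
      filter_upwards [hΨF, eventually_mem hq] with z h1 h2
      rw [h1, hval z h2]
    have hbdd : ∀ a ∈ closure (G : Set ℂ), ∃ C : ℝ, ∀ᶠ z in 𝓝 a, z ∈ (G : Set ℂ) →
        ‖ex (g.val 0) z‖ ≤ C := by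
      intro a ha
      refine ⟨‖ex (g.val 0) a‖ + 1, ?_⟩
      have h1 : Tendsto (fun z => ‖ex (g.val 0) z‖) (𝓝[closure (G : Set ℂ)] a)
          (𝓝 ‖ex (g.val 0) a‖) := ((continuousOn_ex (g.val 0)) a ha).norm
      have h2 := h1.eventually (eventually_le_nhds (lt_add_one ‖ex (g.val 0) a‖))
      rw [eventually_nhdsWithin_iff] at h2
      filter_upwards [h2] with z hz hzG
      exact hz (subset_closure hzG)
    obtain ⟨b, r, Φ, w, hb, hr, hΦ, hw, hwb, hΦw⟩ := Holo.exit_point G.isOpen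
      (differentiableOn_ex g.mem) hmd hm0 hbdd hq haG has hΨ hΨ'
    obtain ⟨i', hi'⟩ := exists_mem_NN g hb hr hΦ hw hwb hΦw
    exact hg i' hi'
  · push Not at hm0
    have h1 := linearIndependent_iff'.1 linearIndependent_exp S c (by
      funext z
      simpa [hm] using hm0 z)
    exact h1

/-- The main theorem in the form of jets. -/
theorem main (hne : (G : Set ℂ).Nonempty) (hreg : interior (closure (G : Set ℂ)) = G) :
    ∃ E : Submodule ℂ (AI G), Dense (E : Set (AI G)) ∧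
      (∀ g ∈ E, g ≠ 0 → ¬ ∃ (Ω : Set ℂ) (F : ℂ → ℂ), IsOpen Ω ∧ IsConnected Ω ∧ (G : Set ℂ) ⊂ Ω ∧
        DifferentiableOn ℂ F Ω ∧
        ∀ (z : ℂ) (hz : z ∈ (G : Set ℂ)), F z = g.val 0 ⟨z, subset_closure hz⟩) ∧
      BaireSpace E := by
  obtain ⟨h, hh⟩ := exists_generic hreg
  obtain ⟨E, hE1, hE2, hE3⟩ := BaireSubspace.exists_baire_submodule (X := AI G) NN (mulExp h)
    (continuous_mulExp h) (linearIndependent_mulExp h hh)
  exact ⟨E, hE1, fun g hg hg0 => not_extendable g (fun i hi => hg0 (hE2 i g hg hi)) hne, hE3⟩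

end Pool.Agent.H45.Jets
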