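import Mathlib
import Pool.Agent.H45.Aver
import Pool.Agent.H45.Auerbach

set_option autoImplicit false

open Finset Module MeasureTheory

namespace Pool.Agent.H45.Aver

section layer

lemma rpow_eq_integral {r x M : ℝ} (hr : 0 < r) (hx : 0 ≤ x) (hM : x ≤ M) :
    ∫ t in Set.Ioc 0 M, (if t < x then r * t ^ (r - 1) else 0) = x ^ r := by
  have h1 : ∀ t : ℝ, (if t < x then r * t ^ (r - 1) else 0) =
      (Set.Iio x).indicator (fun t => r * t ^ (r - 1)) t := by
    intro t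
    by_cases ht : t < x
    · rw [if_pos ht, Set.indicator_of_mem (Set.mem_Iio.2 ht)]
    · rw [if_neg ht, Set.indicator_of_notMem (by simpa using ht)]
  simp_rw [h1]
  rw [setIntegral_indicator measurableSet_Iio]
  have h2 : Set.Ioc 0 M ∩ Set.Iio x = Set.Ioo 0 x := by
    ext t
    simp only [Set.mem_inter_iff, Set.mem_Ioc, Set.mem_Iio, Set.mem_Ioo]
    constructor
    · rintro ⟨⟨h1, _⟩, h3⟩
      exact ⟨h1, h3⟩
    · rintro ⟨h1, h3⟩
      exact ⟨⟨h1, by linarith⟩, h3⟩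
  rw [h2, ← integral_Ioc_eq_integral_Ioo, ← intervalIntegral.integral_of_le hx,
    intervalIntegral.integral_const_mul, integral_rpow (Or.inl (by linarith))]
  rw [sub_add_cancel, Real.zero_rpow hr.ne', sub_zero]
  field_simp

lemma integrableOn_layer {r x M : ℝ} (hr : 0 < r) (hM0 : 0 ≤ M) (c : ℝ) :
    IntegrableOn (fun t => c * (if t < x then r * t ^ (r - 1) else 0)) (Set.Ioc 0 M) := by
  have h1 : ∀ t : ℝ, (if t < x then r * t ^ (r - 1) else 0) =
      (Set.Iio x).indicator (fun t => r * t ^ (r - 1)) t := by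
    intro t
    by_cases ht : t < x
    · rw [if_pos ht, Set.indicator_of_mem (Set.mem_Iio.2 ht)]
    · rw [if_neg ht, Set.indicator_of_notMem (by simpa using ht)]
  simp_rw [h1]
  have h2 : IntegrableOn (fun t : ℝ => r * t ^ (r - 1)) (Set.Ioc 0 M) := by
    have := (intervalIntegral.intervalIntegrable_rpow' (a := 0) (b := M)
      (show -1 < r - 1 by linarith)).const_mul r
    rwa [intervalIntegrable_iff_integrableOn_Ioc_of_le hM0] at this
  exact (h2.indicator measurableSet_Iio).const_mul c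

/-- Comparison of weighted power sums from a comparison of level sets. -/
lemma layer {ι : Type*} [Fintype ι] {α β x y : ι → ℝ} (hx : ∀ i, 0 ≤ x i) (hy : ∀ i, 0 ≤ y i)
    {r : ℝ} (hr : 0 < r)
    (h : ∀ t : ℝ, 0 < t → ∑ i, (if t < x i then α i else 0) ≤ ∑ i, (if t < y i then β i else 0)) :
    ∑ i, α i * x i ^ r ≤ ∑ i, β i * y i ^ r := by
  set M : ℝ := ∑ i, (x i + y i) with hM
  have hM0 : 0 ≤ M := sum_nonneg fun i _ => add_nonneg (hx i) (hy i)
  have hxM : ∀ i, x i ≤ M := fun i => by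
    have := single_le_sum (f := fun i => x i + y i) (fun i _ => add_nonneg (hx i) (hy i)) (mem_univ i)
    have h2 := hy i
    linarith
  have hyM : ∀ i, y i ≤ M := fun i => by
    have := single_le_sum (f := fun i => x i + y i) (fun i _ => add_nonneg (hx i) (hy i)) (mem_univ i)
    have h2 := hx i
    linarith
  have key : ∀ (a z : ι → ℝ), (∀ i, 0 ≤ z i) → (∀ i, z i ≤ M) →
      ∑ i, a i * z i ^ r = ∫ t in Set.Ioc 0 M, ∑ i, a i * (if t < z i then r * t ^ (r - 1) else 0) := by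
    intro a z hz hzM
    rw [integral_finsetSum _ fun i _ => integrableOn_layer hr hM0 (a i)]
    refine sum_congr rfl fun i _ => ?_
    rw [integral_const_mul, rpow_eq_integral hr (hz i) (hzM i)]
  rw [key α x hx hxM, key β y hy hyM]
  refine setIntegral_mono_on (integrable_finsetSum _ fun i _ => integrableOn_layer hr hM0 (α i))
    (integrable_finsetSum _ fun i _ => integrableOn_layer hr hM0 (β i)) measurableSet_Ioc ?_
  intro t ht
  have h1 : ∀ (a z : ι → ℝ), ∑ i, a i * (if t < z i then r * t ^ (r - 1) else 0) =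
      (r * t ^ (r - 1)) * ∑ i, (if t < z i then a i else 0) := by
    intro a z
    rw [mul_sum]
    refine sum_congr rfl fun i _ => ?_
    split_ifs
    · ring
    · ring
  rw [h1, h1]
  have ht0 : 0 < t := ht.1
  exact mul_le_mul_of_nonneg_left (h t ht0) (by positivity)

end layer

variable (q N : ℕ) [Fact q.Prime]
variable {X : Type*} [NormedAddCommGroup X] [NormedSpace ℝ X]

lemma q_pos : (0 : ℝ) < q := by
  exact_mod_cast (Fact.out : q.Prime).pos

lemma T_map (φ : X →ₗ[ℝ] ℝ) (g : (Fin N → ZMod q) → X) (v : Fin N → ZMod q) :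
    φ (T q N g v) = T q N (fun w => φ (g w)) v := by
  unfold T A J
  simp only [map_sub, map_smul, map_sum]

/-- The `L²(X)` bound. -/
lemma T_bound_X [FiniteDimensional ℝ X] (hN : 1 ≤ N) (g : (Fin N → ZMod q) → X) :
    ∑ v, ‖T q N g v‖ ^ 2 ≤ ((finrank ℝ X : ℝ) * (((N : ℝ) - 1) / q)) ^ 2 * ∑ v, ‖g v‖ ^ 2 := by
  obtain ⟨k, hk⟩ : ∃ k, k = finrank ℝ X := ⟨_, rfl⟩
  obtain ⟨b, hb1, hb2⟩ : ∃ b : Basis (Fin k) ℝ X, (∀ i, ‖b i‖ ≤ 1) ∧ ∀ i x, |b.repr x i| ≤ ‖x‖ := by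
    rw [hk]
    exact auerbach X
  rw [← hk]
  have h1 : ∀ v, ‖T q N g v‖ ^ 2 ≤ (k : ℝ) * ∑ i, (T q N (fun w => b.repr (g w) i) v) ^ 2 := by
    intro v
    have h2 : ‖T q N g v‖ ≤ ∑ i, |T q N (fun w => b.repr (g w) i) v| := by
      conv_lhs => rw [← b.sum_repr (T q N g v)]
      refine (norm_sum_le _ _).trans (sum_le_sum fun i _ => ?_)
      rw [norm_smul, Real.norm_eq_abs]
      have h3 : b.repr (T q N g v) i = T q N (fun w => b.repr (g w) i) v :=
        T_map q N (b.coord i) g v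
      rw [h3]
      exact mul_le_of_le_one_right (abs_nonneg _) (hb1 i)
    calc ‖T q N g v‖ ^ 2 ≤ (∑ i, |T q N (fun w => b.repr (g w) i) v|) ^ 2 := by gcongr
      _ ≤ (k : ℝ) * ∑ i, |T q N (fun w => b.repr (g w) i) v| ^ 2 := by
          have := sq_sum_le_card_mul_sum_sq (s := (univ : Finset (Fin k)))
            (f := fun i => |T q N (fun w => b.repr (g w) i) v|)
          simpa using this
      _ = _ := by simp_rw [sq_abs]
  calc ∑ v, ‖T q N g v‖ ^ 2 ≤ ∑ v, (k : ℝ) * ∑ i, (T q N (fun w => b.repr (g w) i) v) ^ 2 :=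
        sum_le_sum fun v _ => h1 v
    _ = (k : ℝ) * ∑ i, ∑ v, (T q N (fun w => b.repr (g w) i) v) ^ 2 := by
        rw [← mul_sum, sum_comm]
    _ ≤ (k : ℝ) * ∑ i : Fin k, (((N : ℝ) - 1) / q) ^ 2 * ∑ v, ‖g v‖ ^ 2 := by
        refine mul_le_mul_of_nonneg_left (sum_le_sum fun i _ => ?_) (Nat.cast_nonneg _)
        refine (T_bound_real q N hN _).trans (mul_le_mul_of_nonneg_left (sum_le_sum fun v _ => ?_)
          (by positivity))
        rw [← sq_abs]
        have := hb2 i (g v)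
        gcongr
    _ = _ := by
        rw [sum_const, card_univ, Fintype.card_fin, nsmul_eq_mul]
        ring

lemma A_norm_le {g : (Fin N → ZMod q) → X} {s : ℝ} (hg : ∀ v, ‖g v‖ ≤ s) (v : Fin N → ZMod q) :
    ‖A q N g v‖ ≤ s := by
  have hq := q_pos q
  unfold A
  rw [norm_smul, norm_inv, Real.norm_eq_abs, abs_of_pos (by positivity), inv_mul_le_iff₀ (by positivity)]
  refine (norm_sum_le _ _).trans ?_
  have h1 : ∀ x : ZMod q, ‖∑ y : ZMod q, g (v + gen q N x y)‖ ≤ (q : ℝ) * s := by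
    intro x
    refine (norm_sum_le _ _).trans ?_
    calc ∑ y : ZMod q, ‖g (v + gen q N x y)‖ ≤ ∑ _y : ZMod q, s := sum_le_sum fun y _ => hg _
      _ = (q : ℝ) * s := by rw [sum_const, card_univ, ZMod.card, nsmul_eq_mul]
  calc ∑ x : ZMod q, ‖∑ y : ZMod q, g (v + gen q N x y)‖ ≤ ∑ _x : ZMod q, (q : ℝ) * s :=
        sum_le_sum fun x _ => h1 x
    _ = (q : ℝ) ^ 2 * s := by
        rw [sum_const, card_univ, ZMod.card, nsmul_eq_mul]
        ring

lemma J_norm_le {g : (Fin N → ZMod q) → X} {s : ℝ} (hg : ∀ v, ‖g v‖ ≤ s) : ‖J q N g‖ ≤ s := by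
  have hq := q_pos q
  unfold J
  rw [norm_smul, norm_inv, Real.norm_eq_abs, abs_of_pos (by positivity), inv_mul_le_iff₀ (by positivity)]
  refine (norm_sum_le _ _).trans ?_
  calc ∑ v, ‖g v‖ ≤ ∑ _v : Fin N → ZMod q, s := sum_le_sum fun y _ => hg _
    _ = (q : ℝ) ^ N * s := by
        rw [sum_const, card_univ, Fintype.card_fun, ZMod.card, Fintype.card_fin, nsmul_eq_mul]
        push_cast
        ring

lemma T_norm_le {g : (Fin N → ZMod q) → X} {s : ℝ} (hg : ∀ v, ‖g v‖ ≤ s) (v : Fin N → ZMod q) :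
    ‖T q N g v‖ ≤ 2 * s := by
  unfold T
  refine (norm_sub_le _ _).trans ?_
  have h1 := A_norm_le q N hg v
  have h2 := J_norm_le q N hg
  linarith

lemma T_add (g h : (Fin N → ZMod q) → X) (v : Fin N → ZMod q) :
    T q N (fun w => g w + h w) v = T q N g v + T q N h v := by
  unfold T A J
  simp only [sum_add_distrib, smul_add]
  abel

/-- Interpolation. -/
lemma T_bound_p {p : ℝ} (hp : 2 < p) {ε : ℝ}
    (hT : ∀ g : (Fin N → ZMod q) → X, ∑ v, ‖T q N g v‖ ^ 2 ≤ ε ^ 2 * ∑ v, ‖g v‖ ^ 2)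
    (g : (Fin N → ZMod q) → X) :
    ∑ v, ‖T q N g v‖ ^ p ≤ 4 ^ (p - 1) * ε ^ 2 * ∑ v, ‖g v‖ ^ p := by
  classical
  have hlev : ∀ t : ℝ, 0 < t →
      ∑ v, (if t < ‖T q N g v‖ / 4 then (‖T q N g v‖ / 2) ^ 2 else 0) ≤
      ∑ v, (if t < ‖g v‖ then ε ^ 2 * ‖g v‖ ^ 2 else 0) := by
    intro t ht
    set g1 : (Fin N → ZMod q) → X := fun w => if t < ‖g w‖ then g w else 0 with hg1
    set g2 : (Fin N → ZMod q) → X := fun w => if t < ‖g w‖ then 0 else g w with hg2
    have hg12 : g = fun w => g1 w + g2 w := by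
      funext w
      rw [hg1, hg2]
      simp only
      split_ifs <;> simp
    have hb2 : ∀ w, ‖g2 w‖ ≤ t := by
      intro w
      rw [hg2]
      simp only
      split_ifs with h
      · rw [norm_zero]
        exact ht.le
      · exact not_lt.1 h
    have hpt : ∀ v, (if t < ‖T q N g v‖ / 4 then (‖T q N g v‖ / 2) ^ 2 else 0) ≤
        ‖T q N g1 v‖ ^ 2 := by
      intro v
      split_ifs with h
      · have h1 : T q N g v = T q N g1 v + T q N g2 v := by
          conv_lhs => rw [hg12]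
          exact T_add q N g1 g2 v
        have h2 := T_norm_le q N hb2 v
        have h3 : ‖T q N g v‖ ≤ ‖T q N g1 v‖ + 2 * t := by
          rw [h1]
          exact (norm_add_le _ _).trans (by linarith)
        have h4 : ‖T q N g v‖ / 2 ≤ ‖T q N g1 v‖ := by linarith
        gcongr
      · positivity
    calc _ ≤ ∑ v, ‖T q N g1 v‖ ^ 2 := sum_le_sum fun v _ => hpt v
      _ ≤ ε ^ 2 * ∑ v, ‖g1 v‖ ^ 2 := hT g1
      _ = _ := by
          rw [mul_sum]
          refine sum_congr rfl fun v _ => ?_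
          rw [hg1]
          simp only
          split_ifs <;> simp
  have h1 := layer (r := p - 2) (fun v => by positivity) (fun v => norm_nonneg (g v))
    (by linarith) hlev
  have e1 : ∀ a : ℝ, 0 ≤ a → (a / 2) ^ 2 * (a / 4) ^ (p - 2) = (4 ^ (p - 1))⁻¹ * a ^ p := by
    intro a ha
    have h2 : a ^ p = a ^ 2 * a ^ (p - 2) := by
      rw [← Real.rpow_natCast a 2, ← Real.rpow_add_of_nonneg ha (by norm_num) (by linarith)]
      congr 1
      push_cast
      ring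
    have h3 : (4 : ℝ) ^ (p - 1) = 4 * 4 ^ (p - 2) := by
      rw [← Real.rpow_one_add' (by norm_num) (by linarith)]
      congr 1
      ring
    rw [Real.div_rpow ha (by norm_num), h2, h3]
    have h4 : (0 : ℝ) < 4 ^ (p - 2) := by positivity
    field_simp
    ring
  have e2 : ∀ a : ℝ, 0 ≤ a → ε ^ 2 * a ^ 2 * a ^ (p - 2) = ε ^ 2 * a ^ p := by
    intro a ha
    have h2 : a ^ p = a ^ 2 * a ^ (p - 2) := by
      rw [← Real.rpow_natCast a 2, ← Real.rpow_add_of_nonneg ha (by norm_num) (by linarith)]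
      congr 1
      push_cast
      ring
    rw [h2]
    ring
  have e3 : ∑ v, (‖T q N g v‖ / 2) ^ 2 * (‖T q N g v‖ / 4) ^ (p - 2) =
      (4 ^ (p - 1))⁻¹ * ∑ v, ‖T q N g v‖ ^ p := by
    rw [mul_sum]
    exact sum_congr rfl fun v _ => e1 _ (norm_nonneg _)
  have e4 : ∑ v, ε ^ 2 * ‖g v‖ ^ 2 * ‖g v‖ ^ (p - 2) = ε ^ 2 * ∑ v, ‖g v‖ ^ p := by
    rw [mul_sum]
    exact sum_congr rfl fun v _ => e2 _ (norm_nonneg _)
  rw [e3, e4, inv_mul_le_iff₀ (by positivity)] at h1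
  rw [mul_assoc]
  exact h1

lemma add_rpow_le' {a b p : ℝ} (ha : 0 ≤ a) (hb : 0 ≤ b) (hp : 1 ≤ p) :
    (a + b) ^ p ≤ 2 ^ (p - 1) * (a ^ p + b ^ p) := by
  lift a to NNReal using ha
  lift b to NNReal using hb
  have := NNReal.rpow_add_le_mul_rpow_add_rpow a b hp
  exact_mod_cast this

lemma A_const (c : X) (v : Fin N → ZMod q) : A q N (fun _ => c) v = c := by
  have hq := (q_pos q).ne'
  unfold A
  simp only [sum_const, card_univ, ZMod.card]
  rw [← Nat.cast_smul_eq_nsmul ℝ, ← Nat.cast_smul_eq_nsmul ℝ, smul_smul, smul_smul]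
  have : ((q : ℝ) ^ 2)⁻¹ * (q : ℝ) * (q : ℝ) = 1 := by
    field_simp
  rw [this, one_smul]

lemma J_const (c : X) : J q N (fun _ => c) = c := by
  have hq := (q_pos q).ne'
  unfold J
  simp only [sum_const, card_univ, Fintype.card_fun, ZMod.card, Fintype.card_fin]
  rw [← Nat.cast_smul_eq_nsmul ℝ, smul_smul]
  push_cast
  rw [inv_mul_cancel₀ (pow_ne_zero _ hq), one_smul]

lemma T_sub_const (g : (Fin N → ZMod q) → X) (c : X) (v : Fin N → ZMod q) :
    T q N (fun w => g w - c) v = T q N g v := by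
  have h1 := T_add q N g (fun _ => -c) v
  have h2 : T q N (fun _ => -c) v = 0 := by
    unfold T
    rw [A_const, J_const, sub_self]
  rw [h2, add_zero] at h1
  simpa [sub_eq_add_neg] using h1

lemma jensen {p : ℝ} (hp : 1 ≤ p) (g : (Fin N → ZMod q) → X) (v : Fin N → ZMod q) :
    ‖g v - A q N g v‖ ^ p ≤ ((q : ℝ) ^ 2)⁻¹ * ∑ x : ZMod q, ∑ y : ZMod q,
      ‖g v - g (v + gen q N x y)‖ ^ p := by
  have hq := q_pos q
  have h1 : ‖g v - A q N g v‖ ≤ ∑ z : ZMod q × ZMod q, ((q : ℝ) ^ 2)⁻¹ *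
      ‖g v - g (v + gen q N z.1 z.2)‖ := by
    have h2 : g v - A q N g v = ((q : ℝ) ^ 2)⁻¹ • ∑ x : ZMod q, ∑ y : ZMod q,
        (g v - g (v + gen q N x y)) := by
      conv_lhs => rw [← A_const q N (g v) v]
      unfold A
      rw [← smul_sub, ← sum_sub_distrib]
      simp_rw [sum_sub_distrib]
    rw [h2, norm_smul, norm_inv, Real.norm_eq_abs, abs_of_pos (by positivity), ← mul_sum]
    refine mul_le_mul_of_nonneg_left ?_ (by positivity)
    rw [Fintype.sum_prod_type]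
    exact (norm_sum_le _ _).trans (sum_le_sum fun x _ => norm_sum_le _ _)
  calc ‖g v - A q N g v‖ ^ p ≤ (∑ z : ZMod q × ZMod q, ((q : ℝ) ^ 2)⁻¹ *
      ‖g v - g (v + gen q N z.1 z.2)‖) ^ p := by
        exact Real.rpow_le_rpow (norm_nonneg _) h1 (by linarith)
    _ ≤ ∑ z : ZMod q × ZMod q, ((q : ℝ) ^ 2)⁻¹ * ‖g v - g (v + gen q N z.1 z.2)‖ ^ p := by
        refine Real.rpow_arith_mean_le_arith_mean_rpow _ _ _ (fun z _ => by positivity) ?_
          (fun z _ => norm_nonneg _) hp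
        rw [sum_const, card_univ, Fintype.card_prod, ZMod.card, nsmul_eq_mul]
        push_cast
        field_simp
    _ = _ := by
        rw [← mul_sum, Fintype.sum_prod_type]

/-- The Poincaré inequality for functions with values in `X`. -/
lemma poincare {p : ℝ} (hp : 2 < p) {ε : ℝ}
    (hT : ∀ g : (Fin N → ZMod q) → X, ∑ v, ‖T q N g v‖ ^ 2 ≤ ε ^ 2 * ∑ v, ‖g v‖ ^ 2)
    (hε : 8 ^ (p - 1) * ε ^ 2 ≤ 1 / 2) (g : (Fin N → ZMod q) → X) :
    ∑ v, ∑ w, ‖g v - g w‖ ^ p ≤ 4 ^ p * (q : ℝ) ^ N * (((q : ℝ) ^ 2)⁻¹ * ∑ v, ∑ x : ZMod q,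
      ∑ y : ZMod q, ‖g v - g (v + gen q N x y)‖ ^ p) := by
  have hq := q_pos q
  set c := J q N g with hc
  set E : ℝ := ((q : ℝ) ^ 2)⁻¹ * ∑ v, ∑ x : ZMod q, ∑ y : ZMod q,
    ‖g v - g (v + gen q N x y)‖ ^ p with hE
  set S : ℝ := ∑ v, ‖g v - c‖ ^ p with hS
  have h1 : ∀ v, ‖g v - c‖ ^ p ≤ 2 ^ (p - 1) * (‖g v - A q N g v‖ ^ p + ‖T q N g v‖ ^ p) := by
    intro v
    have h2 : ‖g v - c‖ ≤ ‖g v - A q N g v‖ + ‖T q N g v‖ := by
      have h3 : g v - c = (g v - A q N g v) + T q N g v := by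
        unfold T
        rw [hc]
        abel
      rw [h3]
      exact norm_add_le _ _
    exact (Real.rpow_le_rpow (norm_nonneg _) h2 (by linarith)).trans
      (add_rpow_le' (norm_nonneg _) (norm_nonneg _) (by linarith))
  have h2 : ∑ v, ‖g v - A q N g v‖ ^ p ≤ E := by
    rw [hE, mul_sum]
    exact sum_le_sum fun v _ => jensen q N (by linarith) g v
  have h3 : ∑ v, ‖T q N g v‖ ^ p ≤ 4 ^ (p - 1) * ε ^ 2 * S := by
    have h4 := T_bound_p q N hp hT (fun w => g w - c)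
    simp_rw [T_sub_const] at h4
    exact h4
  have h4 : S ≤ 2 ^ (p - 1) * (E + 4 ^ (p - 1) * ε ^ 2 * S) := by
    calc S ≤ ∑ v, 2 ^ (p - 1) * (‖g v - A q N g v‖ ^ p + ‖T q N g v‖ ^ p) :=
          sum_le_sum fun v _ => h1 v
      _ = 2 ^ (p - 1) * (∑ v, ‖g v - A q N g v‖ ^ p + ∑ v, ‖T q N g v‖ ^ p) := by
          rw [← mul_sum, sum_add_distrib]
      _ ≤ _ := by gcongr
  have hS0 : 0 ≤ S := sum_nonneg fun v _ => by positivity
  have h8 : (2 : ℝ) ^ (p - 1) * (4 ^ (p - 1) * ε ^ 2) = 8 ^ (p - 1) * ε ^ 2 := by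
    rw [← mul_assoc, ← Real.mul_rpow (by norm_num) (by norm_num)]
    norm_num
  have h5 : S ≤ 2 ^ (p - 1) * E + 1 / 2 * S := by
    calc S ≤ 2 ^ (p - 1) * (E + 4 ^ (p - 1) * ε ^ 2 * S) := h4
      _ = 2 ^ (p - 1) * E + (2 ^ (p - 1) * (4 ^ (p - 1) * ε ^ 2)) * S := by ring
      _ ≤ _ := by
          rw [h8]
          gcongr
  have h2p : (2 : ℝ) ^ p = 2 * 2 ^ (p - 1) := by
    rw [← Real.rpow_one_add' (by norm_num) (by linarith)]
    congr 1
    ring
  have h6 : S ≤ 2 ^ p * E := by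
    rw [h2p]
    linarith
  have h7 : ∀ v w, ‖g v - g w‖ ^ p ≤ 2 ^ (p - 1) * (‖g v - c‖ ^ p + ‖g w - c‖ ^ p) := by
    intro v w
    have h8 : ‖g v - g w‖ ≤ ‖g v - c‖ + ‖g w - c‖ := by
      have h9 : g v - g w = (g v - c) - (g w - c) := by abel
      rw [h9]
      exact norm_sub_le _ _
    exact (Real.rpow_le_rpow (norm_nonneg _) h8 (by linarith)).trans
      (add_rpow_le' (norm_nonneg _) (norm_nonneg _) (by linarith))
  have hcard : ((univ : Finset (Fin N → ZMod q)).card : ℝ) = (q : ℝ) ^ N := by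
    rw [card_univ, Fintype.card_fun, ZMod.card, Fintype.card_fin]
    push_cast
    rfl
  calc ∑ v, ∑ w, ‖g v - g w‖ ^ p ≤ ∑ v, ∑ w, 2 ^ (p - 1) * (‖g v - c‖ ^ p + ‖g w - c‖ ^ p) :=
        sum_le_sum fun v _ => sum_le_sum fun w _ => h7 v w
    _ = 2 ^ p * (q : ℝ) ^ N * S := by
        simp_rw [← mul_sum, sum_add_distrib, sum_const, nsmul_eq_mul, hcard]
        rw [← mul_sum, ← hS, h2p]
        ring
    _ ≤ 2 ^ p * (q : ℝ) ^ N * (2 ^ p * E) := by gcongr
    _ = 4 ^ p * (q : ℝ) ^ N * E := by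
        have h4p : (4 : ℝ) ^ p = 2 ^ p * 2 ^ p := by
          rw [← Real.mul_rpow (by norm_num) (by norm_num)]
          norm_num
        rw [h4p]
        ring

end Pool.Agent.H45.Aver
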