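import Mathlib
import Pool.Agent.H45.Poinc

set_option autoImplicit false

open Finset Module

namespace Pool.Agent.H45.Aver

variable (q N : ℕ) [Fact q.Prime]

/-- The Poincaré inequality for functions with values in `ℓ_p(X)`. -/
lemma poincare_lp {X : Type*} [NormedAddCommGroup X] [NormedSpace ℝ X] {p : ℝ} (hp : 2 < p) {ε : ℝ}
    (hT : ∀ g : (Fin N → ZMod q) → X, ∑ v, ‖T q N g v‖ ^ 2 ≤ ε ^ 2 * ∑ v, ‖g v‖ ^ 2)
    (hε : 8 ^ (p - 1) * ε ^ 2 ≤ 1 / 2)
    (f : (Fin N → ZMod q) → lp (fun _ : ℕ => X) (ENNReal.ofReal p)) :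
    ∑ v, ∑ w, ‖f v - f w‖ ^ p ≤ 4 ^ p * (q : ℝ) ^ N * (((q : ℝ) ^ 2)⁻¹ * ∑ v, ∑ x : ZMod q,
      ∑ y : ZMod q, ‖f v - f (v + gen q N x y)‖ ^ p) := by
  have hpt : (ENNReal.ofReal p).toReal = p := ENNReal.toReal_ofReal (by linarith)
  have h1 : ∀ v w : Fin N → ZMod q,
      HasSum (fun m => ‖f v m - f w m‖ ^ p) (‖f v - f w‖ ^ p) := by
    intro v w
    have := lp.hasSum_norm (p := ENNReal.ofReal p) (by rw [hpt]; linarith) (f v - f w)
    rw [hpt] at this
    exact this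
  have hL : HasSum (fun m => ∑ v, ∑ w, ‖f v m - f w m‖ ^ p) (∑ v, ∑ w, ‖f v - f w‖ ^ p) :=
    hasSum_sum fun v _ => hasSum_sum fun w _ => h1 v w
  have hR : HasSum (fun m => 4 ^ p * (q : ℝ) ^ N * (((q : ℝ) ^ 2)⁻¹ * ∑ v, ∑ x : ZMod q,
      ∑ y : ZMod q, ‖f v m - f (v + gen q N x y) m‖ ^ p)) (4 ^ p * (q : ℝ) ^ N *
      (((q : ℝ) ^ 2)⁻¹ * ∑ v, ∑ x : ZMod q, ∑ y : ZMod q, ‖f v - f (v + gen q N x y)‖ ^ p)) :=
    ((hasSum_sum fun v _ => hasSum_sum fun x _ => hasSum_sum fun y _ =>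
      h1 v (v + gen q N x y)).mul_left _).mul_left _
  exact hasSum_le (fun m => poincare q N hp hT hε fun v => f v m) hL hR

/-- Word balls. -/
def B : ℕ → Finset (Fin N → ZMod q)
  | 0 => {0}
  | j + 1 => ((B j) ×ˢ (univ : Finset (ZMod q × ZMod q))).image
      fun z => z.1 + gen q N z.2.1 z.2.2

lemma gen_zero (x : ZMod q) : gen q N x 0 = 0 := by
  funext i
  simp [gen]

lemma gen_neg (x y : ZMod q) : gen q N x (-y) = -gen q N x y := by
  funext i
  simp [gen]

lemma mem_B_succ {j : ℕ} {u : Fin N → ZMod q} :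
    u ∈ B q N (j + 1) ↔ ∃ w ∈ B q N j, ∃ x y, w + gen q N x y = u := by
  rw [B, mem_image]
  constructor
  · rintro ⟨⟨w, x, y⟩, hw, rfl⟩
    rw [mem_product] at hw
    exact ⟨w, hw.1, x, y, rfl⟩
  · rintro ⟨w, hw, x, y, rfl⟩
    exact ⟨⟨w, x, y⟩, mem_product.2 ⟨hw, mem_univ _⟩, rfl⟩

lemma card_B (j : ℕ) : (B q N j).card ≤ q ^ (2 * j) := by
  induction j with
  | zero => simp [B]
  | succ j ih =>
    rw [B]
    refine card_image_le.trans ?_
    rw [card_product, card_univ, Fintype.card_prod, ZMod.card]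
    calc (B q N j).card * (q * q) ≤ q ^ (2 * j) * (q * q) := Nat.mul_le_mul_right _ ih
      _ = q ^ (2 * (j + 1)) := by ring

lemma B_mono {i j : ℕ} (h : i ≤ j) : B q N i ⊆ B q N j := by
  induction j, h using Nat.le_induction with
  | base => exact Finset.Subset.refl _
  | succ j _ ih =>
    refine ih.trans fun u hu => ?_
    rw [mem_B_succ]
    exact ⟨u, hu, 0, 0, by rw [gen_zero, add_zero]⟩

lemma B_neg {j : ℕ} : ∀ {u : Fin N → ZMod q}, u ∈ B q N j → -u ∈ B q N j := by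
  induction j with
  | zero =>
    intro u hu
    rw [B, mem_singleton] at hu ⊢
    rw [hu, neg_zero]
  | succ j ih =>
    intro u hu
    rw [mem_B_succ] at hu ⊢
    obtain ⟨w, hw, x, y, rfl⟩ := hu
    exact ⟨-w, ih hw, x, -y, by rw [gen_neg, neg_add]⟩

lemma B_add {i j : ℕ} {u : Fin N → ZMod q} (hu : u ∈ B q N i) :
    ∀ {w : Fin N → ZMod q}, w ∈ B q N j → u + w ∈ B q N (i + j) := by
  induction j with
  | zero =>
    intro w hw
    rw [B, mem_singleton] at hw
    rw [hw, add_zero, add_zero]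
    exact hu
  | succ j ih =>
    intro w hw
    rw [mem_B_succ] at hw
    obtain ⟨w', hw', x, y, rfl⟩ := hw
    rw [← add_assoc, mem_B_succ]
    exact ⟨u + w', ih hw', x, y, by rw [add_assoc]⟩

variable (R : ℕ)

/-- Truncated word length. -/
def len (u : Fin N → ZMod q) : ℕ :=
  Nat.find (p := fun j => u ∈ B q N j ∨ R ≤ j) ⟨R, Or.inr le_rfl⟩

lemma len_spec (u : Fin N → ZMod q) : u ∈ B q N (len q N R u) ∨ R ≤ len q N R u :=
  Nat.find_spec (p := fun j => u ∈ B q N j ∨ R ≤ j) ⟨R, Or.inr le_rfl⟩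

lemma len_le_R (u : Fin N → ZMod q) : len q N R u ≤ R :=
  Nat.find_min' _ (Or.inr le_rfl)

lemma len_le {u : Fin N → ZMod q} {j : ℕ} (h : u ∈ B q N j) : len q N R u ≤ j :=
  Nat.find_min' _ (Or.inl h)

lemma len_zero : len q N R 0 = 0 := by
  have : (0 : Fin N → ZMod q) ∈ B q N 0 := by rw [B, mem_singleton]
  exact Nat.le_zero.1 (len_le q N R this)

lemma eq_zero_of_len (hR : 1 ≤ R) {u : Fin N → ZMod q} (h : len q N R u = 0) : u = 0 := by
  have h1 := len_spec q N R u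
  rw [h] at h1
  rcases h1 with h1 | h1
  · rwa [B, mem_singleton] at h1
  · omega

lemma len_neg_le (u : Fin N → ZMod q) : len q N R (-u) ≤ len q N R u := by
  rcases len_spec q N R u with h | h
  · exact len_le q N R (B_neg q N h)
  · exact (len_le_R q N R _).trans h

lemma len_neg (u : Fin N → ZMod q) : len q N R (-u) = len q N R u := by
  refine le_antisymm (len_neg_le q N R u) ?_
  have := len_neg_le q N R (-u)
  rwa [neg_neg] at this

lemma len_add (u w : Fin N → ZMod q) : len q N R (u + w) ≤ len q N R u + len q N R w := by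
  rcases len_spec q N R u with h | h
  · rcases len_spec q N R w with h' | h'
    · exact len_le q N R (B_add q N h h')
    · exact (len_le_R q N R _).trans (by omega)
  · exact (len_le_R q N R _).trans (by omega)

lemma len_eq_R {u : Fin N → ZMod q} (h : u ∉ B q N (R - 1)) : len q N R u = R := by
  refine le_antisymm (len_le_R q N R u) ?_
  rcases len_spec q N R u with h1 | h1
  · by_contra hcon
    exact h (B_mono q N (by omega) h1)
  · exact h1

lemma len_gen (x y : ZMod q) : len q N R (gen q N x y) ≤ 1 := by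
  refine len_le q N R ?_
  rw [mem_B_succ]
  exact ⟨0, by rw [B, mem_singleton], x, y, by rw [zero_add]⟩

/-- The vertices, with the truncated word metric. -/
def Vert (_R : ℕ) : Type := Fin N → ZMod q

instance : Fintype (Vert q N R) := inferInstanceAs (Fintype (Fin N → ZMod q))

/-- The underlying vector of a vertex. -/
def vec (v : Vert q N R) : Fin N → ZMod q := v

/-- The truncated word metric. -/
@[instance_reducible]
noncomputable def vertMetric (hR : 1 ≤ R) : MetricSpace (Vert q N R) where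
  dist v w := (len q N R (vec q N R w - vec q N R v) : ℝ)
  dist_self v := by
    rw [sub_self, len_zero, Nat.cast_zero]
  dist_comm v w := by
    rw [← len_neg, neg_sub]
  dist_triangle u v w := by
    have h := len_add q N R (vec q N R v - vec q N R u) (vec q N R w - vec q N R v)
    rw [sub_add_sub_cancel'] at h
    exact_mod_cast h
  eq_of_dist_eq_zero {v w} h := by
    have h1 : len q N R (vec q N R w - vec q N R v) = 0 := by
      exact_mod_cast h
    exact (sub_eq_zero.1 (eq_zero_of_len q N R hR h1)).symm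

/-- No good embedding of the word metric. -/
lemma no_embed {X : Type*} [NormedAddCommGroup X] [NormedSpace ℝ X] {p : ℝ} (hp : 2 < p) {ε D : ℝ}
    (hD : 1 ≤ D) (hN : N = 2 * R) (hR : 1 ≤ R) (hRD : 8 * D ≤ R)
    (hT : ∀ g : (Fin N → ZMod q) → X, ∑ v, ‖T q N g v‖ ^ 2 ≤ ε ^ 2 * ∑ v, ‖g v‖ ^ 2)
    (hε : 8 ^ (p - 1) * ε ^ 2 ≤ 1 / 2)
    (f : (Fin N → ZMod q) → lp (fun _ : ℕ => X) (ENNReal.ofReal p))
    (hf : ∀ v w, (len q N R (w - v) : ℝ) ≤ ‖f v - f w‖ ∧ ‖f v - f w‖ ≤ D * len q N R (w - v)) :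
    False := by
  have hq := q_pos q
  have hq2 : (2 : ℝ) ≤ q := by exact_mod_cast (Fact.out : q.Prime).two_le
  have hqN : (0 : ℝ) < (q : ℝ) ^ N := by positivity
  have hcard : ((univ : Finset (Fin N → ZMod q)).card : ℝ) = (q : ℝ) ^ N := by
    rw [card_univ, Fintype.card_fun, ZMod.card, Fintype.card_fin]
    push_cast
    rfl
  have h1 := poincare_lp q N hp hT hε f
  -- upper bound
  have h2 : ∀ v x y, ‖f v - f (v + gen q N x y)‖ ^ p ≤ D ^ p := by
    intro v x y
    refine Real.rpow_le_rpow (lp.norm_nonneg' _) ?_ (by linarith)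
    refine (hf v (v + gen q N x y)).2.trans ?_
    rw [add_sub_cancel_left]
    have h3 : (len q N R (gen q N x y) : ℝ) ≤ 1 := by exact_mod_cast len_gen q N R x y
    nlinarith
  have h3 : ((q : ℝ) ^ 2)⁻¹ * ∑ v, ∑ x : ZMod q, ∑ y : ZMod q, ‖f v - f (v + gen q N x y)‖ ^ p ≤
      (q : ℝ) ^ N * D ^ p := by
    calc _ ≤ ((q : ℝ) ^ 2)⁻¹ * ∑ _v : Fin N → ZMod q, ∑ _x : ZMod q, ∑ _y : ZMod q, D ^ p := by
          refine mul_le_mul_of_nonneg_left ?_ (by positivity)
          exact sum_le_sum fun v _ => sum_le_sum fun x _ => sum_le_sum fun y _ => h2 v x y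
      _ = _ := by
          simp_rw [sum_const, nsmul_eq_mul, hcard]
          rw [card_univ, ZMod.card]
          field_simp
  -- lower bound
  have h4 : ∀ v, (q : ℝ) ^ N / 2 * (R : ℝ) ^ p ≤ ∑ w, ‖f v - f w‖ ^ p := by
    intro v
    have h5 : ∑ w, ‖f v - f w‖ ^ p = ∑ u, ‖f v - f (v + u)‖ ^ p :=
      (Fintype.sum_equiv (Equiv.addLeft v) _ _ fun c => rfl).symm
    rw [h5]
    have h6 : ∀ u, (if u ∈ B q N (R - 1) then 0 else (R : ℝ) ^ p) ≤ ‖f v - f (v + u)‖ ^ p := by
      intro u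
      split_ifs with hu
      · exact Real.rpow_nonneg (lp.norm_nonneg' _) _
      · refine Real.rpow_le_rpow (by positivity) ?_ (by linarith)
        have h7 := (hf v (v + u)).1
        rw [add_sub_cancel_left, len_eq_R q N R hu] at h7
        exact h7
    refine le_trans ?_ (sum_le_sum fun u _ => h6 u)
    rw [sum_ite, sum_const_zero, zero_add, sum_const, nsmul_eq_mul]
    refine mul_le_mul_of_nonneg_right ?_ (by positivity)
    have h8 : (univ.filter fun u => u ∉ B q N (R - 1)).card = (univ : Finset (Fin N → ZMod q)).card -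
        (B q N (R - 1)).card := by
      rw [← card_sdiff_of_subset (subset_univ _)]
      congr 1
      ext u
      simp
    have h9 : (B q N (R - 1)).card ≤ (univ : Finset (Fin N → ZMod q)).card := card_le_univ _
    rw [h8, Nat.cast_sub h9, hcard]
    have h10 : ((B q N (R - 1)).card : ℝ) ≤ (q : ℝ) ^ (2 * (R - 1)) := by
      exact_mod_cast card_B q N (R - 1)
    have h11 : (q : ℝ) ^ N = (q : ℝ) ^ (2 * (R - 1)) * (q : ℝ) ^ 2 := by
      rw [← pow_add]
      congr 1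
      omega
    have h12 : (0 : ℝ) < (q : ℝ) ^ (2 * (R - 1)) := by positivity
    rw [h11]
    have h13 : (4 : ℝ) ≤ (q : ℝ) ^ 2 := by nlinarith
    have h14 := mul_le_mul_of_nonneg_left h13 h12.le
    linarith
  have h5 : (q : ℝ) ^ N * ((q : ℝ) ^ N / 2 * (R : ℝ) ^ p) ≤ ∑ v, ∑ w, ‖f v - f w‖ ^ p := by
    calc _ = ∑ _v : Fin N → ZMod q, (q : ℝ) ^ N / 2 * (R : ℝ) ^ p := by
          rw [sum_const, nsmul_eq_mul, hcard]
      _ ≤ _ := sum_le_sum fun v _ => h4 v
  have h6 : (q : ℝ) ^ N * ((q : ℝ) ^ N / 2 * (R : ℝ) ^ p) ≤ 4 ^ p * (q : ℝ) ^ N * ((q : ℝ) ^ N * D ^ p) := by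
    refine h5.trans (h1.trans ?_)
    gcongr
  have h7 : (R : ℝ) ^ p / 2 ≤ 4 ^ p * D ^ p := by
    have h8 : ((q : ℝ) ^ N) ^ 2 * ((R : ℝ) ^ p / 2) ≤ ((q : ℝ) ^ N) ^ 2 * (4 ^ p * D ^ p) := by
      nlinarith
    exact le_of_mul_le_mul_left h8 (by positivity)
  have h8 : (4 : ℝ) ^ p * D ^ p ≤ ((R : ℝ) / 2) ^ p := by
    rw [← Real.mul_rpow (by norm_num) (by linarith)]
    exact Real.rpow_le_rpow (by positivity) (by linarith) (by linarith)
  rw [Real.div_rpow (by positivity) (by norm_num)] at h8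
  have hRp : (0 : ℝ) < (R : ℝ) ^ p := by
    have : (0 : ℝ) < R := by exact_mod_cast hR
    positivity
  have h9 : (2 : ℝ) < 2 ^ p := by
    calc (2 : ℝ) = 2 ^ (1 : ℝ) := (Real.rpow_one 2).symm
      _ < 2 ^ p := Real.rpow_lt_rpow_of_exponent_lt (by norm_num) (by linarith)
  have h10 : (R : ℝ) ^ p / 2 ^ p < (R : ℝ) ^ p / 2 := by
    gcongr
  linarith

end Pool.Agent.H45.Aver
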